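import Mathlib

set_option autoImplicit false
set_option linter.unusedSectionVars false

open MeasureTheory ProbabilityTheory
open scoped ENNReal

namespace Pool.Agent.V11331.BR

/-- The random input attached to one particle: the number of its children and, for every location
`x` and every index `j`, the location to which its child `j` moves if the particle sits at `x`. -/
abbrev Env (V : Type) := ℕ × (V → ℕ → V)

/-- A realisation: particles are labelled by words (`[]` is the first particle, `u ++ [j]` is the
child `j` of `u`), and every label carries an input. -/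
abbrev Omega (V : Type) := List ℕ → Env V

/-- The location of the particle `u` if the first particle starts at `x`. -/
def pos {V : Type} : Omega V → V → List ℕ → V
  | _, x, [] => x
  | ω, x, j :: u => pos (fun w => ω (j :: w)) ((ω []).2 x j) u

/-- The particle `u` is born. -/
def alive {V : Type} : Omega V → List ℕ → Prop
  | _, [] => True
  | ω, j :: u => j < (ω []).1 ∧ alive (fun w => ω (j :: w)) u

section measure

variable {V : Type} [MeasurableSpace V]

/-- The law of the input of one particle: offspring number with law `μ` and, independently, all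
the moves, those from `x` with law `P x`. -/
noncomputable def envMeasure (μ : PMF ℕ) (P : V → PMF V) : Measure (Env V) :=
  μ.toMeasure.prod (Measure.infinitePi fun x => Measure.infinitePi fun _ : ℕ => (P x).toMeasure)

/-- The branching random walk: all particles have independent inputs. -/
noncomputable def brw (μ : PMF ℕ) (P : V → PMF V) : Measure (Omega V) :=
  Measure.infinitePi fun _ => envMeasure μ P

instance (μ : PMF ℕ) (P : V → PMF V) : IsProbabilityMeasure (envMeasure μ P) := by
  unfold envMeasure
  infer_instance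

instance (μ : PMF ℕ) (P : V → PMF V) : IsProbabilityMeasure (brw μ P) := by
  unfold brw
  infer_instance

end measure

lemma indep_of_disjoint {ι A B E : Type} [MeasurableSpace E] (η : Measure E)
    [IsProbabilityMeasure η] (φ : A → ι) (ψ : B → ι) (h : ∀ a b, φ a ≠ ψ b) :
    IndepFun (fun (ω : ι → E) a => ω (φ a)) (fun ω b => ω (ψ b))
      (Measure.infinitePi fun _ : ι => η) := by
  have h1 : iIndepFun (fun (i : ι) (ω : ι → E) => ω i) (Measure.infinitePi fun _ : ι => η) :=
    iIndepFun_infinitePi (X := fun _ x => x) (fun _ => measurable_id)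
  have h2 := indep_iSup_of_disjoint (m := fun i : ι =>
      MeasurableSpace.comap (fun ω : ι → E => ω i) inferInstance)
    (fun i => (measurable_pi_apply i).comap_le) h1 (S := Set.range φ) (T := Set.range ψ) (by
      rw [Set.disjoint_left]
      rintro _ ⟨a, rfl⟩ ⟨b, hb⟩
      exact h a b hb.symm)
  refine indep_of_indep_of_le_left (indep_of_indep_of_le_right h2 ?_) ?_
  · apply Measurable.comap_le
    refine @measurable_pi_iff _ _ _ (_) _ _ |>.2 fun b => ?_
    rw [measurable_iff_comap_le]
    exact le_iSup₂_of_le (ψ b) ⟨b, rfl⟩ le_rfl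
  · apply Measurable.comap_le
    refine @measurable_pi_iff _ _ _ (_) _ _ |>.2 fun b => ?_
    rw [measurable_iff_comap_le]
    exact le_iSup₂_of_le (φ b) ⟨b, rfl⟩ le_rfl

lemma meas_sub {E : Type} [MeasurableSpace E] (j : ℕ) :
    Measurable (fun (ω : List ℕ → E) (w : List ℕ) => ω (j :: w)) :=
  measurable_pi_iff.2 fun _ => measurable_pi_apply _

/-- The law of the input of the first particle and of the two subtrees. -/
lemma split_map {E : Type} [MeasurableSpace E] (η : Measure E) [IsProbabilityMeasure η] :
    (Measure.infinitePi fun _ : List ℕ => η).map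
      (fun ω => (ω [], ((fun w => ω (0 :: w) : List ℕ → E), (fun w => ω (1 :: w) : List ℕ → E)))) =
    η.prod ((Measure.infinitePi fun _ : List ℕ => η).prod
      (Measure.infinitePi fun _ : List ℕ => η)) := by
  have e0 : (Measure.infinitePi fun _ : List ℕ => η).map (fun ω (w : List ℕ) => ω (0 :: w)) =
      Measure.infinitePi fun _ : List ℕ => η :=
    Measure.map_infinitePi_infinitePi_of_inj (P := fun _ : List ℕ => η) (f := fun w => 0 :: w)
      (fun a b h => (List.cons.inj h).2)
  have e1 : (Measure.infinitePi fun _ : List ℕ => η).map (fun ω (w : List ℕ) => ω (1 :: w)) =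
      Measure.infinitePi fun _ : List ℕ => η :=
    Measure.map_infinitePi_infinitePi_of_inj (P := fun _ : List ℕ => η) (f := fun w => 1 :: w)
      (fun a b h => (List.cons.inj h).2)
  have er : (Measure.infinitePi fun _ : List ℕ => η).map (fun ω => ω []) = η :=
    Measure.infinitePi_map_eval (fun _ : List ℕ => η) []
  have i01 : IndepFun (fun (ω : List ℕ → E) (w : List ℕ) => ω (0 :: w))
      (fun ω (w : List ℕ) => ω (1 :: w)) (Measure.infinitePi fun _ : List ℕ => η) :=
    indep_of_disjoint η (fun w : List ℕ => 0 :: w) (fun w : List ℕ => 1 :: w) (by simp)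
  have ir := indep_of_disjoint η (fun _ : Unit => ([] : List ℕ))
    (fun b : ℕ × List ℕ => b.1 :: b.2) (by simp)
  have m1 : Measurable (fun f : Unit → E => f ()) := measurable_pi_apply ()
  have m2 : Measurable (fun g : ℕ × List ℕ → E => ((fun w => g (0, w) : List ℕ → E),
      (fun w => g (1, w) : List ℕ → E))) :=
    (measurable_pi_iff.2 fun w => measurable_pi_apply _).prodMk
      (measurable_pi_iff.2 fun w => measurable_pi_apply _)
  have ir' := ir.comp m1 m2
  have h1 := ir'.map_prod_eq_prod_map_map
    (m1.comp (measurable_pi_iff.2 fun _ => measurable_pi_apply _)).aemeasurable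
    (m2.comp (measurable_pi_iff.2 fun _ => measurable_pi_apply _)).aemeasurable
  have h2 := i01.map_prod_eq_prod_map_map (meas_sub 0).aemeasurable (meas_sub 1).aemeasurable
  rw [e0, e1] at h2
  simp only [Function.comp_def] at h1
  rw [er, h2] at h1
  exact h1

section split

variable {V : Type} [MeasurableSpace V] [DiscreteMeasurableSpace V] [Countable V]
  (μ : PMF ℕ) (P : V → PMF V)

lemma env_pair (x : V) :
    (envMeasure μ P).map (fun e => (e.2 x 0, e.2 x 1)) =
      (P x).toMeasure.prod (P x).toMeasure := by
  have h1 : (envMeasure μ P).map (fun e => e.2) =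
      Measure.infinitePi fun x => Measure.infinitePi fun _ : ℕ => (P x).toMeasure := by
    unfold envMeasure
    exact measurePreserving_snd.map_eq
  have h2 := Measure.infinitePi_map_eval
    (fun x => Measure.infinitePi fun _ : ℕ => (P x).toMeasure) x
  have h3 := Measure.infinitePi_map_eval_prod (P := fun _ : ℕ => (P x).toMeasure)
    (i := 0) (j := 1) (by norm_num)
  rw [← h3, ← h2, ← h1, Measure.map_map (by fun_prop) (by fun_prop),
    Measure.map_map (by fun_prop) (by fun_prop)]
  rfl

lemma lintegral_split (x : V) (H : V → V → Omega V → Omega V → ℝ≥0∞)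
    (hH : ∀ y z, Measurable (fun p : Omega V × Omega V => H y z p.1 p.2)) :
    ∫⁻ ω, H ((ω []).2 x 0) ((ω []).2 x 1) (fun w => ω (0 :: w)) (fun w => ω (1 :: w)) ∂(brw μ P) =
      ∑' y, ∑' z, P x y * (P x z * ∫⁻ a, ∫⁻ b, H y z a b ∂(brw μ P) ∂(brw μ P)) := by
  have hm : Measurable (fun q : (V × V) × (Omega V × Omega V) => H q.1.1 q.1.2 q.2.1 q.2.2) :=
    measurable_from_prod_countable_right (fun y => hH y.1 y.2)
  have hF : Measurable (fun p : Env V × (Omega V × Omega V) =>
      H (p.1.2 x 0) (p.1.2 x 1) p.2.1 p.2.2) :=
    hm.comp (by fun_prop : Measurable (fun p : Env V × (Omega V × Omega V) =>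
      ((p.1.2 x 0, p.1.2 x 1), p.2)))
  have h1 : ∫⁻ ω, H ((ω []).2 x 0) ((ω []).2 x 1) (fun w => ω (0 :: w)) (fun w => ω (1 :: w))
      ∂(brw μ P) = ∫⁻ p, H (p.1.2 x 0) (p.1.2 x 1) p.2.1 p.2.2
        ∂((brw μ P).map (fun ω => (ω [], ((fun w => ω (0 :: w) : Omega V),
          (fun w => ω (1 :: w) : Omega V))))) := by
    rw [lintegral_map hF ((measurable_pi_apply _).prodMk ((meas_sub 0).prodMk (meas_sub 1)))]
  rw [h1]
  unfold brw
  rw [split_map, lintegral_prod _ hF.aemeasurable]
  have h2 : ∀ e : Env V, ∫⁻ q, H (e.2 x 0) (e.2 x 1) q.1 q.2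
      ∂((Measure.infinitePi fun _ : List ℕ => envMeasure μ P).prod
        (Measure.infinitePi fun _ : List ℕ => envMeasure μ P)) =
      ∫⁻ a, ∫⁻ b, H (e.2 x 0) (e.2 x 1) a b ∂(Measure.infinitePi fun _ => envMeasure μ P)
        ∂(Measure.infinitePi fun _ => envMeasure μ P) := fun e =>
    lintegral_prod _ (hH _ _).aemeasurable
  simp only [h2]
  have h3 : ∫⁻ e : Env V, ∫⁻ a, ∫⁻ b, H (e.2 x 0) (e.2 x 1) a b
      ∂(Measure.infinitePi fun _ => envMeasure μ P)
        ∂(Measure.infinitePi fun _ => envMeasure μ P) ∂(envMeasure μ P) =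
      ∫⁻ q : V × V, ∫⁻ a, ∫⁻ b, H q.1 q.2 a b
      ∂(Measure.infinitePi fun _ => envMeasure μ P)
        ∂(Measure.infinitePi fun _ => envMeasure μ P)
        ∂((envMeasure μ P).map (fun e => (e.2 x 0, e.2 x 1))) := by
    rw [lintegral_map (measurable_of_countable _) (by fun_prop)]
  rw [h3, env_pair, lintegral_prod _ (measurable_of_countable _).aemeasurable,
    lintegral_countable']
  refine tsum_congr fun y => ?_
  rw [PMF.toMeasure_apply_singleton _ _ (measurableSet_singleton _), lintegral_countable',
    mul_comm, ← ENNReal.tsum_mul_left]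
  refine tsum_congr fun z => ?_
  rw [PMF.toMeasure_apply_singleton _ _ (measurableSet_singleton _)]
  ring

end split

end Pool.Agent.V11331.BR
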