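import Pool.Agent.V11331.BR.Base

set_option autoImplicit false
set_option linter.unusedSectionVars false

open MeasureTheory ProbabilityTheory
open scoped ENNReal

namespace Pool.Agent.V11331.BR

variable {V : Type} [MeasurableSpace V] [DiscreteMeasurableSpace V] [Countable V]
  (μ : PMF ℕ) (P : V → PMF V)

lemma meas_comp {β : Type} [MeasurableSpace β] (F : V → Omega V → β)
    (hF : ∀ y, Measurable (F y)) (x : V) (j : ℕ) :
    Measurable (fun ω : Omega V => F ((ω []).2 x j) (fun w => ω (j :: w))) := by
  have h1 : Measurable (fun q : V × Omega V => F q.1 q.2) :=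
    measurable_from_prod_countable_right hF
  have h2 : Measurable (fun ω : Omega V => (ω []).2 x j) := by fun_prop
  exact h1.comp (h2.prodMk (meas_sub j))

lemma tsum_pmf_pair (p : PMF V) (c : ℝ≥0∞) (α β : V → ℝ≥0∞) :
    ∑' y, ∑' z, p y * (p z * (c + α y + β z)) =
      c + ∑' y, p y * α y + ∑' y, p y * β y := by
  have h1 : ∀ y, ∑' z, p y * (p z * (c + α y + β z)) =
      p y * (c + α y) + p y * ∑' z, p z * β z := by
    intro y
    rw [ENNReal.tsum_mul_left]
    have : ∀ z, p z * (c + α y + β z) = p z * (c + α y) + p z * β z := fun z => by ring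
    simp only [this]
    rw [ENNReal.tsum_add, ENNReal.tsum_mul_right, p.tsum_coe, one_mul, mul_add]
  simp only [h1]
  rw [ENNReal.tsum_add, ENNReal.tsum_mul_right, p.tsum_coe, one_mul]
  congr 1
  have : ∀ y, p y * (c + α y) = p y * c + p y * α y := fun y => by ring
  simp only [this]
  rw [ENNReal.tsum_add, ENNReal.tsum_mul_right, p.tsum_coe, one_mul]

lemma tsum_pmf_mul (p : PMF V) (α β : V → ℝ≥0∞) :
    ∑' y, ∑' z, p y * (p z * (α y * β z)) = (∑' y, p y * α y) * ∑' y, p y * β y := by
  have h1 : ∀ y, ∑' z, p y * (p z * (α y * β z)) = (p y * α y) * ∑' z, p z * β z := by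
    intro y
    rw [← ENNReal.tsum_mul_left]
    exact tsum_congr fun z => by ring
  simp only [h1]
  rw [ENNReal.tsum_mul_right]

/-- Markov property at the first generation along the child `j`. -/
lemma lintegral_child (x : V) (H : V → Omega V → ℝ≥0∞) (hH : ∀ y, Measurable (H y)) (j : ℕ)
    (hj : j < 2) :
    ∫⁻ ω, H ((ω []).2 x j) (fun w => ω (j :: w)) ∂(brw μ P) =
      ∑' y, P x y * ∫⁻ a, H y a ∂(brw μ P) := by
  have h0 := tsum_pmf_pair (P x) 0
  interval_cases j
  · have h := lintegral_split μ P x (fun y _ a _ => H y a) (fun y _ => (hH y).comp measurable_fst)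
    rw [h]
    simp only [lintegral_const, measure_univ, mul_one]
    have := h0 (fun y => ∫⁻ a, H y a ∂(brw μ P)) 0
    simpa using this
  · have h := lintegral_split μ P x (fun _ z _ b => H z b) (fun _ z => (hH z).comp measurable_snd)
    rw [h]
    simp only [lintegral_const, measure_univ, mul_one]
    have := h0 0 (fun y => ∫⁻ a, H y a ∂(brw μ P))
    simpa using this

open Classical in
/-- The number of the particles of the generations `< t` at `z` (binary branching, a step from
`x` to `y` has the weight `g x y`). -/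
noncomputable def cnt (g : V → V → ℝ≥0∞) : ℕ → Omega V → V → V → ℝ≥0∞
  | 0, _, _, _ => 0
  | t + 1, ω, x, z => (if x = z then 1 else 0) +
      g x ((ω []).2 x 0) * cnt g t (fun w => ω (0 :: w)) ((ω []).2 x 0) z +
      g x ((ω []).2 x 1) * cnt g t (fun w => ω (1 :: w)) ((ω []).2 x 1) z

lemma measurable_cnt (g : V → V → ℝ≥0∞) (t : ℕ) (x z : V) :
    Measurable (fun ω : Omega V => cnt g t ω x z) := by
  induction t generalizing x with
  | zero => exact measurable_const
  | succ t ih =>
    refine (measurable_const.add ?_).add ?_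
    · exact meas_comp (fun y ω => g x y * cnt g t ω y z)
        (fun y => (ih y).const_mul _) x 0
    · exact meas_comp (fun y ω => g x y * cnt g t ω y z)
        (fun y => (ih y).const_mul _) x 1

/-- The first moment. -/
noncomputable def fm (g : V → V → ℝ≥0∞) (t : ℕ) (x z : V) : ℝ≥0∞ :=
  ∫⁻ ω, cnt g t ω x z ∂(brw μ P)

/-- The second moment. -/
noncomputable def sm (g : V → V → ℝ≥0∞) (t : ℕ) (x z z' : V) : ℝ≥0∞ :=
  ∫⁻ ω, cnt g t ω x z * cnt g t ω x z' ∂(brw μ P)

open Classical in
lemma fm_succ (g : V → V → ℝ≥0∞) (t : ℕ) (x z : V) :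
    fm μ P g (t + 1) x z = (if x = z then 1 else 0) +
      2 * ∑' y, P x y * (g x y * fm μ P g t y z) := by
  unfold fm
  have h := lintegral_split μ P x (fun y y' a b => (if x = z then 1 else 0) +
      g x y * cnt g t a y z + g x y' * cnt g t b y' z) (fun y y' =>
      (measurable_const.add (((measurable_cnt g t y z).const_mul _).comp measurable_fst)).add
        (((measurable_cnt g t y' z).const_mul _).comp measurable_snd))
  have e : ∀ ω : Omega V, cnt g (t + 1) ω x z = (if x = z then 1 else 0) +
      g x ((ω []).2 x 0) * cnt g t (fun w => ω (0 :: w)) ((ω []).2 x 0) z +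
      g x ((ω []).2 x 1) * cnt g t (fun w => ω (1 :: w)) ((ω []).2 x 1) z := fun _ => rfl
  simp only [e]
  rw [h]
  have h2 : ∀ y y' : V, ∫⁻ a, ∫⁻ b, ((if x = z then 1 else 0) +
      g x y * cnt g t a y z + g x y' * cnt g t b y' z) ∂(brw μ P) ∂(brw μ P) =
      (if x = z then 1 else 0) + g x y * (∫⁻ ω, cnt g t ω y z ∂(brw μ P)) +
        g x y' * (∫⁻ ω, cnt g t ω y' z ∂(brw μ P)) := by
    intro y y'
    have h3 : ∀ a : Omega V, ∫⁻ b, ((if x = z then 1 else 0) +
      g x y * cnt g t a y z + g x y' * cnt g t b y' z) ∂(brw μ P) =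
      (if x = z then 1 else 0) + g x y * cnt g t a y z +
        g x y' * (∫⁻ ω, cnt g t ω y' z ∂(brw μ P)) := by
      intro a
      rw [lintegral_add_left measurable_const, lintegral_const, measure_univ, mul_one,
        lintegral_const_mul _ (measurable_cnt g t y' z)]
    simp only [h3]
    rw [lintegral_add_right _ measurable_const, lintegral_add_left measurable_const,
      lintegral_const, lintegral_const, measure_univ, mul_one, mul_one,
      lintegral_const_mul _ (measurable_cnt g t y z)]
  simp only [h2]
  rw [tsum_pmf_pair]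
  ring

open Classical in
lemma sm_succ (g : V → V → ℝ≥0∞) (hg : ∀ x y, g x y * g x y = g x y) (t : ℕ) (x z z' : V) :
    sm μ P g (t + 1) x z z' = (if x = z then 1 else 0) * (if x = z' then 1 else 0) +
      (if x = z then 1 else 0) * (2 * ∑' y, P x y * (g x y * fm μ P g t y z')) +
      (if x = z' then 1 else 0) * (2 * ∑' y, P x y * (g x y * fm μ P g t y z)) +
      2 * (∑' y, P x y * (g x y * sm μ P g t y z z')) +
      2 * ((∑' y, P x y * (g x y * fm μ P g t y z)) *
        ∑' y, P x y * (g x y * fm μ P g t y z')) := by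
  set d : ℝ≥0∞ := if x = z then 1 else 0 with hd
  set d' : ℝ≥0∞ := if x = z' then 1 else 0 with hd'
  have e0 : sm μ P g (t + 1) x z z' =
    ∫⁻ ω, cnt g (t + 1) ω x z * cnt g (t + 1) ω x z' ∂(brw μ P) := rfl
  rw [e0]
  have h := lintegral_split μ P x (fun y y' a b => (d +
      g x y * cnt g t a y z + g x y' * cnt g t b y' z) * (d' +
      g x y * cnt g t a y z' + g x y' * cnt g t b y' z')) (fun y y' =>
      ((measurable_const.add (((measurable_cnt g t y z).const_mul _).comp measurable_fst)).add
        (((measurable_cnt g t y' z).const_mul _).comp measurable_snd)).mul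
      ((measurable_const.add (((measurable_cnt g t y z').const_mul _).comp measurable_fst)).add
        (((measurable_cnt g t y' z').const_mul _).comp measurable_snd)))
  have e : ∀ ω : Omega V, ∀ z : V, cnt g (t + 1) ω x z = (if x = z then 1 else 0) +
      g x ((ω []).2 x 0) * cnt g t (fun w => ω (0 :: w)) ((ω []).2 x 0) z +
      g x ((ω []).2 x 1) * cnt g t (fun w => ω (1 :: w)) ((ω []).2 x 1) z := fun _ _ => rfl
  simp only [e]
  rw [← hd, ← hd', h]
  have h2 : ∀ y y' : V, ∫⁻ a, ∫⁻ b, ((d +
      g x y * cnt g t a y z + g x y' * cnt g t b y' z) * (d' +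
      g x y * cnt g t a y z' + g x y' * cnt g t b y' z')) ∂(brw μ P) ∂(brw μ P) =
      (d * d' + (d * (g x y * fm μ P g t y z') + d' * (g x y * fm μ P g t y z) +
        g x y * sm μ P g t y z z') + (d * (g x y' * fm μ P g t y' z') +
        d' * (g x y' * fm μ P g t y' z) + g x y' * sm μ P g t y' z z')) +
      ((g x y * fm μ P g t y z) * (g x y' * fm μ P g t y' z') +
        (g x y * fm μ P g t y z') * (g x y' * fm μ P g t y' z)) := by
    intro y y'
    have m1 := measurable_cnt g t y z
    have m2 := measurable_cnt g t y z'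
    have m3 := measurable_cnt g t y' z
    have m4 := measurable_cnt g t y' z'
    have m12 : Measurable (fun ω : Omega V => cnt g t ω y z * cnt g t ω y z') := m1.mul m2
    have m34 : Measurable (fun ω : Omega V => cnt g t ω y' z * cnt g t ω y' z') := m3.mul m4
    have h3 : ∀ a : Omega V, ∫⁻ b, ((d +
      g x y * cnt g t a y z + g x y' * cnt g t b y' z) * (d' +
      g x y * cnt g t a y z' + g x y' * cnt g t b y' z')) ∂(brw μ P) =
      (d + g x y * cnt g t a y z) * (d' + g x y * cnt g t a y z') +
        (d + g x y * cnt g t a y z) * (g x y' * fm μ P g t y' z') +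
        (d' + g x y * cnt g t a y z') * (g x y' * fm μ P g t y' z) +
        g x y' * sm μ P g t y' z z' := by
      intro a
      have h4 : ∀ b : Omega V, ((d +
        g x y * cnt g t a y z + g x y' * cnt g t b y' z) * (d' +
        g x y * cnt g t a y z' + g x y' * cnt g t b y' z')) =
        (d + g x y * cnt g t a y z) * (d' + g x y * cnt g t a y z') +
        ((d + g x y * cnt g t a y z) * g x y') * cnt g t b y' z' +
        ((d' + g x y * cnt g t a y z') * g x y') * cnt g t b y' z +
        (g x y' * g x y') * (cnt g t b y' z * cnt g t b y' z') := fun b => by ring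
      simp only [h4]
      rw [lintegral_add_right _ (m34.const_mul _), lintegral_add_right _ (m3.const_mul _),
        lintegral_add_right _ (m4.const_mul _), lintegral_const, measure_univ, mul_one,
        lintegral_const_mul _ m4, lintegral_const_mul _ m3, lintegral_const_mul _ m34, hg]
      unfold fm sm
      ring
    simp only [h3]
    have h5 : ∀ a : Omega V, (d + g x y * cnt g t a y z) * (d' + g x y * cnt g t a y z') +
        (d + g x y * cnt g t a y z) * (g x y' * fm μ P g t y' z') +
        (d' + g x y * cnt g t a y z') * (g x y' * fm μ P g t y' z) +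
        g x y' * sm μ P g t y' z z' =
        (d * d' + d * (g x y' * fm μ P g t y' z') + d' * (g x y' * fm μ P g t y' z) +
          g x y' * sm μ P g t y' z z') +
        (d' * g x y + g x y * (g x y' * fm μ P g t y' z')) * cnt g t a y z +
        (d * g x y + g x y * (g x y' * fm μ P g t y' z)) * cnt g t a y z' +
        (g x y * g x y) * (cnt g t a y z * cnt g t a y z') := fun a => by ring
    simp only [h5]
    rw [lintegral_add_right _ (m12.const_mul _), lintegral_add_right _ (m2.const_mul _),
        lintegral_add_right _ (m1.const_mul _), lintegral_const, measure_univ, mul_one,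
        lintegral_const_mul _ m1, lintegral_const_mul _ m2, lintegral_const_mul _ m12, hg]
    unfold fm sm
    ring
  simp only [h2]
  have h6 : ∀ y y' : V, P x y * (P x y' * ((d * d' + (d * (g x y * fm μ P g t y z') +
        d' * (g x y * fm μ P g t y z) +
        g x y * sm μ P g t y z z') + (d * (g x y' * fm μ P g t y' z') +
        d' * (g x y' * fm μ P g t y' z) + g x y' * sm μ P g t y' z z')) +
      ((g x y * fm μ P g t y z) * (g x y' * fm μ P g t y' z') +
        (g x y * fm μ P g t y z') * (g x y' * fm μ P g t y' z)))) =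
      P x y * (P x y' * (d * d' + (d * (g x y * fm μ P g t y z') +
        d' * (g x y * fm μ P g t y z) +
        g x y * sm μ P g t y z z') + (d * (g x y' * fm μ P g t y' z') +
        d' * (g x y' * fm μ P g t y' z) + g x y' * sm μ P g t y' z z'))) +
      (P x y * (P x y' * ((g x y * fm μ P g t y z) * (g x y' * fm μ P g t y' z'))) +
        P x y * (P x y' * ((g x y * fm μ P g t y z') * (g x y' * fm μ P g t y' z)))) :=
    fun y y' => by ring
  simp only [h6, ENNReal.tsum_add]
  rw [tsum_pmf_pair (P x) (d * d') (fun y => d * (g x y * fm μ P g t y z') +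
        d' * (g x y * fm μ P g t y z) + g x y * sm μ P g t y z z')
      (fun y' => d * (g x y' * fm μ P g t y' z') +
        d' * (g x y' * fm μ P g t y' z) + g x y' * sm μ P g t y' z z'),
    tsum_pmf_mul (P x) (fun y => g x y * fm μ P g t y z) (fun y' => g x y' * fm μ P g t y' z'),
    tsum_pmf_mul (P x) (fun y => g x y * fm μ P g t y z') (fun y' => g x y' * fm μ P g t y' z)]
  have h7 : ∑' y, P x y * (d * (g x y * fm μ P g t y z') +
        d' * (g x y * fm μ P g t y z) + g x y * sm μ P g t y z z') =
      d * (∑' y, P x y * (g x y * fm μ P g t y z')) +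
        d' * (∑' y, P x y * (g x y * fm μ P g t y z)) +
        ∑' y, P x y * (g x y * sm μ P g t y z z') := by
    rw [← ENNReal.tsum_mul_left, ← ENNReal.tsum_mul_left, ← ENNReal.tsum_add, ← ENNReal.tsum_add]
    exact tsum_congr fun y => by ring
  rw [h7]
  ring

end Pool.Agent.V11331.BR
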