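import Pool.Agent.V11331.BR.Meet

set_option autoImplicit false
set_option linter.unusedSectionVars false

open MeasureTheory ProbabilityTheory
open scoped ENNReal

namespace Pool.Agent.V11331.BR

/-- The trace: two different locations are adjacent if a particle (other than the first one) moved
from one to the other when it was born. -/
def trace {V : Type} (ω : Omega V) (x : V) : SimpleGraph V :=
  SimpleGraph.fromRel fun a b => ∃ (u : List ℕ) (j : ℕ), alive ω (u ++ [j]) ∧
    pos ω x u = a ∧ pos ω x (u ++ [j]) = b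

/-- The number of ends: the supremum over the finite vertex sets `K` of the number of infinite
connected components of `H \ K`. -/
noncomputable def numEnds {V : Type} (H : SimpleGraph V) : ℕ∞ :=
  ⨆ K : Finset V, {c : (H.induce {v | v ∉ K}).ConnectedComponent | c.supp.Infinite}.encard

section det

variable {V : Type}

lemma alive_iff (ω : Omega V) (h1 : ∀ u, (ω u).1 = 2) (u : List ℕ) : alive ω u ↔ bin u := by
  induction u generalizing ω with
  | nil => simp [alive, bin]
  | cons j u ih =>
    rw [bin_cons, ← ih (fun w => ω (j :: w)) (fun w => h1 _)]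
    simp [alive, h1]

lemma bin_append {u v : List ℕ} : bin (u ++ v) ↔ bin u ∧ bin v := by
  simp only [bin, List.mem_append]
  constructor
  · intro h
    exact ⟨fun j hj => h j (Or.inl hj), fun j hj => h j (Or.inr hj)⟩
  · rintro ⟨h1, h2⟩ j (hj | hj)
    · exact h1 j hj
    · exact h2 j hj

lemma finite_words (t : ℕ) : {u : List ℕ | bin u ∧ u.length < t}.Finite := by
  refine ((List.finite_length_lt (Fin 2) t).image (List.map Fin.val)).subset ?_
  rintro u ⟨hu, hl⟩
  refine ⟨u.pmap (fun j hj => (⟨j, hj⟩ : Fin 2)) hu, by simpa using hl, ?_⟩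
  rw [List.map_pmap]
  simp

lemma bin_replicate (t : ℕ) : bin (List.replicate t 0) := by
  intro j hj
  rw [List.eq_of_mem_replicate hj]
  norm_num

theorem oneEnded (ω : Omega V) (x : V) (h1 : ∀ u, (ω u).1 = 2)
    (h2 : ∀ z, ∃ t0 : ℕ, ∀ u, bin u → t0 ≤ u.length → pos ω x u ≠ z)
    (h3 : ∀ u v, bin u → bin v → u.length = v.length → u ≠ v → Meet ω ω x x u v) :
    numEnds (trace ω x) = 1 := by
  classical
  choose T hT using h2
  have key : ∀ K : Finset V,
      {c : ((trace ω x).induce {v | v ∉ K}).ConnectedComponent | c.supp.Infinite}.encard = 1 := by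
    intro K
    set t0 := K.sup T with ht0
    have hK : ∀ u, bin u → t0 ≤ u.length → pos ω x u ∈ ({v | v ∉ K} : Set V) := by
      intro u hu hl hmem
      exact hT _ u hu ((Finset.le_sup (f := T) hmem).trans hl) rfl
    set H' := (trace ω x).induce {v | v ∉ K} with hH'
    have step : ∀ (u : List ℕ) (hu : bin u) (hl : t0 ≤ u.length) (j : ℕ) (hj : j < 2)
        (hu' : bin (u ++ [j])) (hl' : t0 ≤ (u ++ [j]).length),
        H'.Reachable ⟨pos ω x u, hK u hu hl⟩ ⟨pos ω x (u ++ [j]), hK _ hu' hl'⟩ := by
      intro u hu hl j hj hu' hl'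
      by_cases he : pos ω x u = pos ω x (u ++ [j])
      · have : (⟨pos ω x u, hK u hu hl⟩ : ({v | v ∉ K} : Set V)) =
          ⟨pos ω x (u ++ [j]), hK _ hu' hl'⟩ := Subtype.ext he
        rw [this]
      · apply SimpleGraph.Adj.reachable
        show (trace ω x).Adj _ _
        rw [trace, SimpleGraph.fromRel_adj]
        exact ⟨he, Or.inl ⟨u, j, (alive_iff ω h1 _).2 hu', rfl, rfl⟩⟩
    have pre : ∀ (w u : List ℕ) (hu : bin u) (hl : t0 ≤ u.length) (hw : bin (u ++ w))
        (hl' : t0 ≤ (u ++ w).length),
        H'.Reachable ⟨pos ω x u, hK u hu hl⟩ ⟨pos ω x (u ++ w), hK _ hw hl'⟩ := by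
      intro w
      induction w with
      | nil =>
        intro u hu hl hw hl'
        have : (⟨pos ω x u, hK u hu hl⟩ : ({v | v ∉ K} : Set V)) =
          ⟨pos ω x (u ++ []), hK _ hw hl'⟩ := Subtype.ext (by simp)
        rw [this]
      | cons j w ih =>
        intro u hu hl hw hl'
        have hj : j < 2 := (bin_cons.1 (bin_append.1 hw).2).1
        have hu1 : bin (u ++ [j]) := bin_append.2 ⟨hu, bin_cons.2 ⟨hj, by simp [bin]⟩⟩
        have hl1 : t0 ≤ (u ++ [j]).length := by simp; omega
        have hw2 : bin ((u ++ [j]) ++ w) := by simpa using hw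
        have hl2 : t0 ≤ ((u ++ [j]) ++ w).length := by simp; omega
        refine (step u hu hl j hj hu1 hl1).trans ?_
        have h := ih (u ++ [j]) hu1 hl1 hw2 hl2
        have : (⟨pos ω x ((u ++ [j]) ++ w), hK _ hw2 hl2⟩ : ({v | v ∉ K} : Set V)) =
          ⟨pos ω x (u ++ j :: w), hK _ hw hl'⟩ := Subtype.ext (by simp)
        rw [← this]
        exact h
    have all : ∀ (u v : List ℕ) (hu : bin u) (hv : bin v) (hl : t0 ≤ u.length)
        (hl' : t0 ≤ v.length),
        H'.Reachable ⟨pos ω x u, hK u hu hl⟩ ⟨pos ω x v, hK _ hv hl'⟩ := by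
      intro u v hu hv hl hl'
      have eu : u = u.take t0 ++ u.drop t0 := (List.take_append_drop t0 u).symm
      have ev : v = v.take t0 ++ v.drop t0 := (List.take_append_drop t0 v).symm
      have bu0 : bin (u.take t0) := fun j hj => hu j (List.mem_of_mem_take hj)
      have bv0 : bin (v.take t0) := fun j hj => hv j (List.mem_of_mem_take hj)
      have lu0 : (u.take t0).length = t0 := by rw [List.length_take]; omega
      have lv0 : (v.take t0).length = t0 := by rw [List.length_take]; omega
      have r1 := pre (u.drop t0) (u.take t0) bu0 lu0.ge (by rw [← eu]; exact hu)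
        (by rw [← eu]; exact hl)
      have r2 := pre (v.drop t0) (v.take t0) bv0 lv0.ge (by rw [← ev]; exact hv)
        (by rw [← ev]; exact hl')
      have e1 : (⟨pos ω x (u.take t0 ++ u.drop t0), hK _ (by rw [← eu]; exact hu)
        (by rw [← eu]; exact hl)⟩ : ({v | v ∉ K} : Set V)) = ⟨pos ω x u, hK u hu hl⟩ :=
        Subtype.ext (congrArg (pos ω x) eu.symm)
      have e2 : (⟨pos ω x (v.take t0 ++ v.drop t0), hK _ (by rw [← ev]; exact hv)
        (by rw [← ev]; exact hl')⟩ : ({v | v ∉ K} : Set V)) = ⟨pos ω x v, hK v hv hl'⟩ :=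
        Subtype.ext (congrArg (pos ω x) ev.symm)
      rw [e1] at r1
      rw [e2] at r2
      refine r1.symm.trans (SimpleGraph.Reachable.trans ?_ r2)
      by_cases hne : u.take t0 = v.take t0
      · have : (⟨pos ω x (u.take t0), hK _ bu0 lu0.ge⟩ : ({v | v ∉ K} : Set V)) =
          ⟨pos ω x (v.take t0), hK _ bv0 lv0.ge⟩ := Subtype.ext (congrArg (pos ω x) hne)
        rw [this]
      · obtain ⟨w, w', bw, bw', hp⟩ := h3 _ _ bu0 bv0 (lu0.trans lv0.symm) hne
        have bb : bin (u.take t0 ++ w) := bin_append.2 ⟨bu0, bw⟩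
        have bb' : bin (v.take t0 ++ w') := bin_append.2 ⟨bv0, bw'⟩
        have ll : t0 ≤ (u.take t0 ++ w).length := by rw [List.length_append]; omega
        have ll' : t0 ≤ (v.take t0 ++ w').length := by rw [List.length_append]; omega
        have s1 := pre w (u.take t0) bu0 lu0.ge bb ll
        have s2 := pre w' (v.take t0) bv0 lv0.ge bb' ll'
        have : (⟨pos ω x (u.take t0 ++ w), hK _ bb ll⟩ : ({v | v ∉ K} : Set V)) =
          ⟨pos ω x (v.take t0 ++ w'), hK _ bb' ll'⟩ := Subtype.ext hp
        rw [this] at s1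
        exact s1.trans s2.symm
    set u0 : List ℕ := List.replicate t0 0 with hu0
    have lu0 : t0 ≤ u0.length := by simp [hu0]
    set c0 := H'.connectedComponentMk ⟨pos ω x u0, hK u0 (bin_replicate t0) lu0⟩ with hc0
    have mem_c0 : ∀ (u : List ℕ) (hu : bin u) (hl : t0 ≤ u.length),
        (⟨pos ω x u, hK u hu hl⟩ : ({v | v ∉ K} : Set V)) ∈ c0.supp := by
      intro u hu hl
      rw [SimpleGraph.ConnectedComponent.mem_supp_iff, hc0, SimpleGraph.ConnectedComponent.eq]
      exact all u u0 hu (bin_replicate t0) hl lu0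
    have hinf : c0.supp.Infinite := by
      intro hfin
      have hF : (Subtype.val '' c0.supp : Set V).Finite := hfin.image _
      set t1 := hF.toFinset.sup T with ht1
      have b1 := bin_replicate (max t0 t1)
      have l1 : t0 ≤ (List.replicate (max t0 t1) 0).length := by simp
      have hm := mem_c0 _ b1 l1
      have hm2 : pos ω x (List.replicate (max t0 t1) 0) ∈ hF.toFinset := by
        rw [Set.Finite.mem_toFinset]
        exact ⟨_, hm, rfl⟩
      refine hT _ _ b1 ?_ rfl
      refine (Finset.le_sup (f := T) hm2).trans ?_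
      simp [ht1]
    have hset : {c : H'.ConnectedComponent | c.supp.Infinite} = {c0} := by
      ext c
      simp only [Set.mem_singleton_iff]
      constructor
      · intro hc
        have hc : c.supp.Infinite := hc
        have hE : {v : ({v | v ∉ K} : Set V) | ∃ u, bin u ∧ u.length < t0 ∧
            pos ω x u = v.1}.Finite := by
          refine Set.Finite.of_finite_image (f := Subtype.val) ?_
            (Subtype.val_injective.injOn)
          refine ((finite_words t0).image (fun u => pos ω x u)).subset ?_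
          rintro _ ⟨v, ⟨u, hu, hl, hp⟩, rfl⟩
          exact ⟨u, ⟨hu, hl⟩, hp⟩
        obtain ⟨v, hv, hvE⟩ := (hc.sdiff hE).nonempty
        obtain ⟨v', hv', hne⟩ := hc.exists_notMem_finset {v}
        have hr : H'.Reachable v v' := by
          rw [SimpleGraph.ConnectedComponent.mem_supp_iff] at hv hv'
          exact SimpleGraph.ConnectedComponent.exact (hv.trans hv'.symm)
        have hvv : v ≠ v' := fun h => hne (by simp [h])
        obtain ⟨p⟩ := hr
        cases p with
        | nil => exact absurd rfl hvv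
        | cons hadj _ =>
          have hadj' : (trace ω x).Adj _ _ := hadj
          rw [trace, SimpleGraph.fromRel_adj] at hadj'
          have hex : ∃ u, bin u ∧ pos ω x u = v.1 := by
            rcases hadj'.2 with ⟨u, j, hal, hp, -⟩ | ⟨u, j, hal, -, hp⟩
            · exact ⟨u, (bin_append.1 ((alive_iff ω h1 _).1 hal)).1, hp⟩
            · exact ⟨u ++ [j], (alive_iff ω h1 _).1 hal, hp⟩
          obtain ⟨u, hu, hp⟩ := hex
          have hl : t0 ≤ u.length := by
            by_contra hlt
            exact hvE ⟨u, hu, by omega, hp⟩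
          have hm := mem_c0 u hu hl
          have e : (⟨pos ω x u, hK u hu hl⟩ : ({v | v ∉ K} : Set V)) = v := Subtype.ext hp
          rw [e] at hm
          rw [SimpleGraph.ConnectedComponent.mem_supp_iff] at hm hv
          exact hv.symm.trans hm
      · rintro rfl
        exact hinf
    rw [hset]
    exact Set.encard_singleton c0
  unfold numEnds
  simp only [key]
  exact ciSup_const

end det

section ae

variable {V : Type} [MeasurableSpace V] [DiscreteMeasurableSpace V] [Countable V]
  (P : V → PMF V)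

lemma ae_two : ∀ᵐ ω ∂(brw (PMF.pure 2) P), ∀ u, (ω u).1 = 2 := by
  rw [ae_all_iff]
  intro u
  have h1 : (brw (PMF.pure 2) P).map (fun ω => ω u) = envMeasure (PMF.pure 2) P :=
    Measure.infinitePi_map_eval (fun _ : List ℕ => envMeasure (PMF.pure 2) P) u
  have h2 : (envMeasure (PMF.pure 2) P).map Prod.fst = (PMF.pure 2).toMeasure := by
    unfold envMeasure
    exact measurePreserving_fst.map_eq
  have h3 : (brw (PMF.pure 2) P).map (fun ω => (ω u).1) = (PMF.pure 2).toMeasure := by
    rw [← h2, ← h1, Measure.map_map (by fun_prop) (by fun_prop)]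
    rfl
  have h4 : ∀ᵐ n ∂((PMF.pure 2).toMeasure : Measure ℕ), n = 2 := by
    rw [PMF.toMeasure_pure, ae_dirac_eq]
    simp
  rw [← h3] at h4
  exact ae_of_ae_map (measurable_fst.comp (measurable_pi_apply u)).aemeasurable h4

open Classical in
/-- The number of the particles of generation `t` at `z` (binary branching). -/
noncomputable def gen : ℕ → Omega V → V → V → ℝ≥0∞
  | 0, _, x, z => if x = z then 1 else 0
  | t + 1, ω, x, z => gen t (fun w => ω (0 :: w)) ((ω []).2 x 0) z +
      gen t (fun w => ω (1 :: w)) ((ω []).2 x 1) z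

lemma measurable_gen (t : ℕ) (x z : V) : Measurable (fun ω : Omega V => gen t ω x z) := by
  induction t generalizing x with
  | zero => exact measurable_const
  | succ t ih =>
    refine Measurable.add ?_ ?_
    · exact meas_comp (fun y ω => gen t ω y z) (fun y => ih y) x 0
    · exact meas_comp (fun y ω => gen t ω y z) (fun y => ih y) x 1

open Classical in
lemma gen_cases (t : ℕ) (ω : Omega V) (x z : V) : gen t ω x z = 0 ∨ 1 ≤ gen t ω x z := by
  induction t generalizing ω x with
  | zero =>
    by_cases h : x = z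
    · right; simp [gen, h]
    · left; simp [gen, h]
  | succ t ih =>
    have e : gen (t + 1) ω x z = gen t (fun w => ω (0 :: w)) ((ω []).2 x 0) z +
      gen t (fun w => ω (1 :: w)) ((ω []).2 x 1) z := rfl
    rw [e]
    rcases ih (fun w => ω (0 :: w)) ((ω []).2 x 0) with h | h
    · rw [h, zero_add]
      exact ih _ _
    · right
      exact h.trans le_self_add

open Classical in
lemma gen_zero (t : ℕ) (ω : Omega V) (x z : V) (h : gen t ω x z = 0) (u : List ℕ) (hu : bin u)
    (hl : u.length = t) : pos ω x u ≠ z := by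
  induction t generalizing ω x u with
  | zero =>
    rw [List.length_eq_zero_iff] at hl
    subst hl
    intro hp
    have hp : x = z := hp
    simp [gen, hp] at h
  | succ t ih =>
    cases u with
    | nil => simp at hl
    | cons j u =>
      have e : gen (t + 1) ω x z = gen t (fun w => ω (0 :: w)) ((ω []).2 x 0) z +
        gen t (fun w => ω (1 :: w)) ((ω []).2 x 1) z := rfl
      rw [e, add_eq_zero] at h
      obtain ⟨hj, hu'⟩ := bin_cons.1 hu
      have hl' : u.length = t := by simpa using hl
      interval_cases j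
      · exact ih _ _ h.1 u hu' hl'
      · exact ih _ _ h.2 u hu' hl'

lemma egen_succ (μ : PMF ℕ) (t : ℕ) (x z : V) : ∫⁻ ω, gen (t + 1) ω x z ∂(brw μ P) =
    2 * ∑' y, P x y * ∫⁻ ω, gen t ω y z ∂(brw μ P) := by
  have e : ∀ ω : Omega V, gen (t + 1) ω x z = gen t (fun w => ω (0 :: w)) ((ω []).2 x 0) z +
        gen t (fun w => ω (1 :: w)) ((ω []).2 x 1) z := fun _ => rfl
  simp only [e]
  rw [lintegral_add_left (meas_comp (fun y ω => gen t ω y z) (fun y => measurable_gen t y z) x 0),
    lintegral_child μ P x (fun y ω => gen t ω y z) (fun y => measurable_gen t y z) 0 (by norm_num),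
    lintegral_child μ P x (fun y ω => gen t ω y z) (fun y => measurable_gen t y z) 1 (by norm_num)]
  ring

open Classical in
lemma ae_transient (μ : PMF ℕ) (z : V) (B : V → ℝ≥0∞) (hB : ∀ x, B x ≠ ∞)
    (h : ∀ x, (if x = z then 1 else 0) + 2 * ∑' y, P x y * B y ≤ B x) (x : V) :
    ∀ᵐ ω ∂(brw μ P), ∃ t0 : ℕ, ∀ u, bin u → t0 ≤ u.length → pos ω x u ≠ z := by
  have h1 : ∀ T : ℕ, ∀ x, ∑ t ∈ Finset.range T, ∫⁻ ω, gen t ω x z ∂(brw μ P) ≤ B x := by
    intro T
    induction T with
    | zero => intro x; simp
    | succ T ih =>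
      intro x
      rw [Finset.sum_range_succ']
      have e0 : ∫⁻ ω, gen 0 ω x z ∂(brw μ P) = if x = z then 1 else 0 := by
        have : ∀ ω : Omega V, gen 0 ω x z = if x = z then 1 else 0 := fun _ => rfl
        simp only [this]
        rw [lintegral_const, measure_univ, mul_one]
      rw [e0]
      simp only [egen_succ]
      rw [← Finset.mul_sum, add_comm]
      refine le_trans ?_ (h x)
      gcongr
      rw [← Summable.tsum_finsetSum (fun _ _ => ENNReal.summable)]
      refine ENNReal.tsum_le_tsum fun y => ?_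
      rw [← Finset.mul_sum]
      exact mul_le_mul_right (ih y) _
  have h2 : ∑' t, ∫⁻ ω, gen t ω x z ∂(brw μ P) ≤ B x := by
    rw [ENNReal.tsum_eq_iSup_nat]
    exact iSup_le fun T => h1 T x
  have h3 : ∫⁻ ω, ∑' t, gen t ω x z ∂(brw μ P) ≠ ∞ := by
    rw [lintegral_tsum fun t => (measurable_gen t x z).aemeasurable]
    exact (h2.trans_lt (lt_top_iff_ne_top.2 (hB x))).ne
  have h4 := ae_lt_top (Measurable.tsum fun t => measurable_gen t x z) h3
  filter_upwards [h4] with ω hω
  have h5 := ENNReal.tendsto_atTop_zero_of_tsum_ne_top hω.ne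
  have h6 := (h5.eventually (gt_mem_nhds (zero_lt_one (α := ℝ≥0∞)))).exists_forall_of_atTop
  obtain ⟨t0, ht0⟩ := h6
  refine ⟨t0, fun u hu hl => ?_⟩
  rcases gen_cases u.length ω x z with h7 | h7
  · exact gen_zero _ ω x z h7 u hu rfl
  · exact absurd (ht0 _ hl) (not_lt.2 h7)

lemma ae_meet (μ : PMF ℕ) (hq : ∀ x y, q μ P x y = 0) (x : V) :
    ∀ᵐ ω ∂(brw μ P), ∀ u v, bin u → bin v → u.length = v.length → u ≠ v →
      Meet ω ω x x u v := by
  rw [ae_all_iff]
  intro u
  rw [ae_all_iff]
  intro v
  by_cases h : bin u ∧ bin v ∧ u.length = v.length ∧ u ≠ v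
  · obtain ⟨hu, hv, hl, hne⟩ := h
    have h1 := claimB μ P hq u v hu hv hl hne x
    have m1 : Measurable (fun ω : Omega V => nm ω ω x x u v) :=
      (measurable_nm x x u v).comp (measurable_id.prodMk measurable_id)
    rw [lintegral_eq_zero_iff m1] at h1
    filter_upwards [h1] with ω hω _ _ _ _
    by_contra hM
    simp [nm, hM] at hω
  · refine Filter.Eventually.of_forall fun ω hu hv hl hne => ?_
    exact absurd ⟨hu, hv, hl, hne⟩ h

open Classical in
/-- A criterion for one end. -/
theorem one_end (hq : ∀ x y, q (PMF.pure 2) P x y = 0)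
    (hB : ∀ z, ∃ B : V → ℝ≥0∞, (∀ x, B x ≠ ∞) ∧
      ∀ x, (if x = z then 1 else 0) + 2 * ∑' y, P x y * B y ≤ B x) (x : V) :
    ∀ᵐ ω ∂(brw (PMF.pure 2) P), numEnds (trace ω x) = 1 := by
  have h2 : ∀ᵐ ω ∂(brw (PMF.pure 2) P), ∀ z, ∃ t0 : ℕ, ∀ u, bin u → t0 ≤ u.length →
      pos ω x u ≠ z := by
    rw [ae_all_iff]
    intro z
    obtain ⟨B, hB1, hB2⟩ := hB z
    exact ae_transient P (PMF.pure 2) z B hB1 hB2 x
  filter_upwards [ae_two P, h2, ae_meet P (PMF.pure 2) hq x] with ω h1 h2 h3
  exact oneEnded ω x h1 h2 h3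

end ae

end Pool.Agent.V11331.BR
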