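import Pool.Agent.V11331.BR.Mom2

set_option autoImplicit false
set_option linter.unusedSectionVars false

open MeasureTheory ProbabilityTheory Filter Topology
open scoped ENNReal

namespace Pool.Agent.V11331.BR

section block

variable (m : ℕ) (h1 : ∀ i, i < W m → T (m + i) = 100)
  (h2 : T (m + W m) = W m * 5 ^ W m)

include h1

lemma W_block (i : ℕ) (hi : i < W m) : (W (m + i) : ℝ) = 50000 ^ i * W m := by
  induction i with
  | zero => simp
  | succ i ih =>
    rw [← add_assoc, Wr_succ, ih (by omega), h1 i (by omega)]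
    have e : T (m + i + 1) = 100 := by
      have := h1 (i + 1) hi
      rwa [← add_assoc] at this
    rw [e, pow_succ]
    push_cast
    ring

include h2

lemma W_end : (W (m + W m) : ℝ) * 100 = (T (m + W m)) ^ 2 * (100 ^ W m) ^ 2 := by
  have hW := W_ge m
  obtain ⟨w, hw⟩ : ∃ w, W m = w + 1 := ⟨W m - 1, by omega⟩
  have h3 := W_block m h1 w (by omega)
  have h4 := Wr_succ (m + w)
  have h5 := h1 w (by omega)
  have e1 : m + W m = m + w + 1 := by omega
  rw [e1] at h2 ⊢
  have hT : (T (m + w + 1) : ℝ) = (W m : ℝ) * 5 ^ W m := by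
    rw [h2]
    push_cast
    ring
  have h6 : (W (m + w + 1) : ℝ) = 5 * 100 * T (m + w + 1) * (50000 ^ w * W m) := by
    rw [h4, h3, h5]
    push_cast
    ring
  rw [h6]
  have h7 : (T (m + w + 1) : ℝ) ^ 2 = T (m + w + 1) * (W m * 5 ^ W m) := by
    rw [← hT]
    ring
  rw [h7, hw]
  have e2 : (50000 : ℝ) ^ w = 5 ^ w * (100 ^ w) ^ 2 := by
    rw [← pow_mul, mul_comm w 2, pow_mul, ← mul_pow]
    norm_num
  rw [e2, pow_succ, pow_succ]
  push_cast
  ring

lemma pf_block (d : ℕ) (hd : d ≤ W m) : (100 : ℝ) ^ d ≤ pf (m + W m) (m + W m - d) := by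
  induction d with
  | zero => rw [Nat.sub_zero, pf_self, pow_zero]
  | succ d ih =>
    have ih' := ih (by omega)
    have e : m + W m - (d + 1) + 1 = m + W m - d := by omega
    rw [pf_succ _ _ (by omega), e, pow_succ, mul_comm]
    have h3 := ff_ge m (m + W m) (fun j hj1 hj2 => by
      obtain ⟨i, rfl⟩ := Nat.exists_eq_add_of_le hj1
      exact h1 i (by omega)) (m + W m - (d + 1)) (by omega) (by omega)
    have h4 : (0 : ℝ) < 100 ^ d := by positivity
    have := ff_pos (m + W m - (d + 1))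
    gcongr

lemma al_block : 0.99 * T (m + W m) * 100 ^ W m ≤ al (m + W m) m := by
  have h3 := pf_block m h1 h2 (W m) le_rfl
  rw [Nat.add_sub_cancel] at h3
  have h4 := Tp_ge (m + W m)
  have h5 := Tr (m + W m)
  unfold al
  calc 0.99 * (T (m + W m) : ℝ) * 100 ^ W m ≤ 0.997 * T (m + W m) * 100 ^ W m := by
        gcongr
        norm_num
    _ = 100 ^ W m * (0.997 * T (m + W m)) := by ring
    _ ≤ _ := by gcongr; exact (pf_pos _ _).le

lemma W_le_al : (W (m + W m) : ℝ) ≤ al (m + W m) m ^ 2 ∧ 1 ≤ al (m + W m) m := by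
  have h3 := al_block m h1 h2
  have h4 := W_end m h1 h2
  have h5 := Tr (m + W m)
  have h6 : (1 : ℝ) ≤ 100 ^ W m := one_le_pow₀ (by norm_num)
  constructor
  · have h7 : (0.99 * (T (m + W m) : ℝ) * 100 ^ W m) ^ 2 ≤ al (m + W m) m ^ 2 :=
      pow_le_pow_left₀ (by positivity) h3 2
    have h8 : (0.99 * (T (m + W m) : ℝ) * 100 ^ W m) ^ 2 = 0.9801 * (W (m + W m) * 100) := by
      rw [h4]
      ring
    have h9 := Wr (m + W m)
    rw [h8] at h7
    linarith
  · refine le_trans ?_ h3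
    nlinarith

lemma T_le_pow : (T (m + W m) : ℝ) ≤ 100 ^ W m := by
  rw [h2]
  have h3 : W m ≤ 20 ^ W m := (Nat.lt_pow_self (by norm_num)).le
  have h4 : W m * 5 ^ W m ≤ 20 ^ W m * 5 ^ W m := Nat.mul_le_mul h3 le_rfl
  rw [← mul_pow] at h4
  norm_num at h4
  exact_mod_cast h4

lemma be_block : be (m + W m) m ≤ 64 * al (m + W m) m ^ 2 := by
  have h3 := T_le_pow m h1 h2
  have h4 := al_pos (m + W m) m
  unfold be
  rw [Nat.add_sub_cancel_left]
  have h5 : (0 : ℝ) < 100 ^ W m := by positivity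
  have h6 : 4 * (T (m + W m) : ℝ) / 100 ^ W m ≤ 4 := by
    rw [div_le_iff₀ h5]
    linarith
  gcongr
  linarith

omit h1 h2 in
lemma ga_le (n j : ℕ) : ga n j ≤ 2 * al n j := by
  unfold ga al
  have h3 := Tp_ge n
  have h4 := Tr n
  have h5 := pf_pos n j
  have : 1 + (T n : ℝ) ≤ 2 * Tp n := by linarith
  nlinarith

omit h1 h2 in
/-- The final real inequality. -/
lemma final_ineq (a w b g r : ℝ) (ha : 1 ≤ a) (hw : 4 ≤ w) (haw : w ≤ a ^ 2) (hb0 : 0 ≤ b)
    (hb : b ≤ 64 * a ^ 2) (hg0 : 0 ≤ g) (hg : g ≤ 2 * a) (hr0 : 0 ≤ r) (hr : r ≤ 2 / w) :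
    w ^ 2 * (b * r ^ 2) ^ 2 + w * (2 * (b * r ^ 2) * (g * r) + (g * r) ^ 2) ≤
      1081600 * (a ^ 2 / (4 * w)) ^ 2 := by
  have hw0 : 0 < w := by linarith
  have hb2 : b * r ^ 2 ≤ 256 * a ^ 2 / w ^ 2 := by
    calc b * r ^ 2 ≤ 64 * a ^ 2 * (2 / w) ^ 2 := by gcongr
      _ = _ := by field_simp; norm_num
  have hg2 : g * r ≤ 4 * a / w := by
    calc g * r ≤ 2 * a * (2 / w) := by gcongr
      _ = _ := by ring
  have n1 : 0 ≤ b * r ^ 2 := by positivity
  have n2 : 0 ≤ g * r := by positivity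
  calc w ^ 2 * (b * r ^ 2) ^ 2 + w * (2 * (b * r ^ 2) * (g * r) + (g * r) ^ 2)
      ≤ w ^ 2 * (256 * a ^ 2 / w ^ 2) ^ 2 +
        w * (2 * (256 * a ^ 2 / w ^ 2) * (4 * a / w) + (4 * a / w) ^ 2) := by gcongr
    _ = 65536 * a ^ 4 / w ^ 2 + 2048 * a ^ 3 / w ^ 2 + 16 * a ^ 2 / w := by
        field_simp
        ring
    _ ≤ 65536 * a ^ 4 / w ^ 2 + 2048 * a ^ 4 / w ^ 2 + 16 * a ^ 4 / w ^ 2 := by
        have k1 : 2048 * a ^ 3 / w ^ 2 ≤ 2048 * a ^ 4 / w ^ 2 := by
          gcongr
          · norm_num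
        have k2 : 16 * a ^ 2 / w ≤ 16 * a ^ 4 / w ^ 2 := by
          rw [div_le_div_iff₀ hw0 (by positivity)]
          have : w * (16 * a ^ 2 * w) ≤ a ^ 2 * (16 * a ^ 2 * w) :=
            mul_le_mul_of_nonneg_right haw (by positivity)
          nlinarith
        linarith
    _ = 1081600 * (a ^ 2 / (4 * w)) ^ 2 := by
        field_simp
        ring

omit h1 h2 in
lemma sum_PL_sq (n j : ℕ) : ∑ k : Fin (W n), ∑ k' : Fin (W n), PL n j k k' ^ 2 =
    (W n : ℝ) ^ 2 * (be n j * rr n ^ 2) ^ 2 +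
      W n * (2 * (be n j * rr n ^ 2) * (ga n j * rr n) + (ga n j * rr n) ^ 2) := by
  have e : ∀ k k' : Fin (W n), PL n j k k' ^ 2 = (be n j * rr n ^ 2) ^ 2 +
      (2 * (be n j * rr n ^ 2) * (ga n j * rr n) + (ga n j * rr n) ^ 2) * ind k k' := by
    intro k k'
    have h : ind k k' ^ 2 = ind k k' := by
      unfold ind
      split_ifs <;> norm_num
    unfold PL
    calc (be n j * rr n ^ 2 + ga n j * rr n * ind k k') ^ 2
        = (be n j * rr n ^ 2) ^ 2 + 2 * (be n j * rr n ^ 2) * (ga n j * rr n) * ind k k' +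
          (ga n j * rr n) ^ 2 * ind k k' ^ 2 := by ring
      _ = _ := by rw [h]; ring
  have h2 : ∀ k : Fin (W n), ∑ k' : Fin (W n), ind k k' = 1 := by
    intro k
    simp [ind]
  simp only [e, Finset.sum_add_distrib, ← Finset.mul_sum, h2, Finset.sum_const,
    Finset.card_univ, Fintype.card_fin, nsmul_eq_mul]
  ring

theorem q_block (i i' : Fin (W m)) :
    q (PMF.pure 2) PK (vx m i) (vx m i') ≤ ENNReal.ofReal (1 - 1 / 1081600) := by
  classical
  set n := m + W m with hn
  have hWm := W_ge m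
  have hmn : m < n := by omega
  have hal := al_pos n m
  have hW := Wr n
  have hr := rr_pos n
  obtain ⟨hwa, ha1⟩ := W_le_al m h1 h2
  rw [← hn] at hwa ha1
  have hlim := AA_lim n (W m) m rfl
  have hpos : 0 < al n m / W n := by positivity
  obtain ⟨t, ht⟩ := (hlim.eventually (lt_mem_nhds (half_lt_self hpos))).exists
  set m1 : ℝ := al n m ^ 2 / (4 * W n) with hm1
  have hm1p : 0 < m1 := by positivity
  have inj : Function.Injective (vx n) := fun a b h => vx_inj.1 h
  refine q_le_of_moments (PMF.pure 2) PK gk t (vx m i) (vx m i')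
    (Finset.univ.image (vx n)) m1 1081600 hm1p (by norm_num) ?_ ?_
  · rw [Finset.sum_image (fun a _ b _ h => inj h)]
    have e : ∀ k, fm (PMF.pure 2) PK gk t (vx m i) (vx n k) *
        fm (PMF.pure 2) PK gk t (vx m i') (vx n k) = ENNReal.ofReal (AA n t m * AA n t m) := by
      intro k
      rw [(fm_level (PMF.pure 2) n k t).1 m hmn i, (fm_level (PMF.pure 2) n k t).1 m hmn i',
        ← ENNReal.ofReal_mul (AA_nonneg n t m)]
    simp only [e]
    rw [Finset.sum_const, Finset.card_univ, Fintype.card_fin, nsmul_eq_mul,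
      ← ENNReal.ofReal_natCast, ← ENNReal.ofReal_mul (by positivity)]
    apply ENNReal.ofReal_le_ofReal
    have hA0 := AA_nonneg n t m
    calc m1 = W n * ((al n m / W n / 2) * (al n m / W n / 2)) := by
          rw [hm1]
          field_simp
          norm_num
      _ ≤ W n * (AA n t m * AA n t m) := by gcongr
  · rw [Finset.sum_image (fun a _ b _ h => inj h)]
    have e : ∀ k, ∑ z' ∈ Finset.univ.image (vx n),
        sm (PMF.pure 2) PK gk t (vx m i) (vx n k) z' *
        sm (PMF.pure 2) PK gk t (vx m i') (vx n k) z' ≤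
        ∑ k' : Fin (W n), ENNReal.ofReal (PL n m k k' ^ 2) := by
      intro k
      rw [Finset.sum_image (fun a _ b _ h => inj h)]
      refine Finset.sum_le_sum fun k' _ => ?_
      rw [sq, ENNReal.ofReal_mul (PL_nonneg n m k k')]
      have hT : ∀ j, m ≤ j → j < n → T j = 100 := by
        intro j hj1 hj2
        obtain ⟨l, rfl⟩ := Nat.exists_eq_add_of_le hj1
        exact h1 l (by omega)
      exact mul_le_mul' (sm_low _ m n hT k k' t m le_rfl hmn i)
        (sm_low _ m n hT k k' t m le_rfl hmn i')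
    refine (Finset.sum_le_sum fun k _ => e k).trans ?_
    have e2 : ∀ k : Fin (W n), ∑ k' : Fin (W n), ENNReal.ofReal (PL n m k k' ^ 2) =
        ENNReal.ofReal (∑ k' : Fin (W n), PL n m k k' ^ 2) := fun k =>
      (ENNReal.ofReal_sum_of_nonneg fun k' _ => by positivity).symm
    simp only [e2]
    rw [← ENNReal.ofReal_sum_of_nonneg fun k _ => Finset.sum_nonneg fun k' _ => by positivity]
    apply ENNReal.ofReal_le_ofReal
    rw [sum_PL_sq]
    have hrw : rr n ≤ 2 / W n := by
      unfold rr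
      rw [div_le_div_iff₀ (by linarith) (by linarith)]
      linarith
    exact final_ineq (al n m) (W n) (be n m) (ga n m) (rr n) ha1 hW hwa (be_pos n m).le
      (be_block m h1 h2) (ga_pos n m).le (ga_le n m) hr.le hrw

end block

/-- Bounded subharmonic functions have nondecreasing maxima over the levels. -/
lemma level_max (g : VV → ℝ≥0∞) (hg1 : ∀ x, g x ≤ 1) (hg : ∀ x, g x ≤ ∑' y, PK x y * g y)
    (j : ℕ) : Finset.univ.sup (fun i => g (vx j i)) ≤ Finset.univ.sup (fun i => g (vx (j + 1) i)) := by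
  set M : ℕ → ℝ≥0∞ := fun j => Finset.univ.sup (fun i => g (vx j i)) with hM
  have hle : ∀ j i, g (vx j i) ≤ M j := fun j i =>
    Finset.le_sup (f := fun i => g (vx j i)) (Finset.mem_univ i)
  have hM1 : ∀ j, M j ≤ 1 := fun j => Finset.sup_le fun i _ => hg1 _
  have hfin : ∀ j, M j ≠ ∞ := fun j => ((hM1 j).trans_lt ENNReal.one_lt_top).ne
  have hcard : ∀ n (i : Fin (W n)) (c : ℝ≥0∞), ENNReal.ofReal (bb n) *
      ∑ _j ∈ Finset.univ.erase i, c = ENNReal.ofReal (bv n) * c := by
    intro n i c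
    rw [Finset.sum_const, Finset.card_erase_of_mem (Finset.mem_univ _), Finset.card_univ,
      Fintype.card_fin, nsmul_eq_mul, ← mul_assoc]
    have hW := Wr n
    congr 1
    have : ((W n - 1 : ℕ) : ℝ≥0∞) = ENNReal.ofReal ((W n : ℝ) - 1) := by
      rw [← ENNReal.ofReal_natCast, Nat.cast_sub (by have := W_ge n; omega), Nat.cast_one]
    rw [this, ← ENNReal.ofReal_mul (bb_pos n).le, mul_comm, W_bb]
  have hup : ∀ n (c : ℝ≥0∞), ENNReal.ofReal (cc n) * ∑ _j : Fin (W (n + 1)), c =
      ENNReal.ofReal (uu n) * c := by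
    intro n c
    rw [Finset.sum_const, Finset.card_univ, Fintype.card_fin, nsmul_eq_mul, ← mul_assoc]
    congr 1
    rw [← ENNReal.ofReal_natCast, ← ENNReal.ofReal_mul (cc_pos n).le, mul_comm, W_cc]
  have hdown : ∀ n (c : ℝ≥0∞), ENNReal.ofReal (cc n) * ∑ _j : Fin (W n), c =
      ENNReal.ofReal (dd (n + 1)) * c := by
    intro n c
    rw [Finset.sum_const, Finset.card_univ, Fintype.card_fin, nsmul_eq_mul, ← mul_assoc]
    congr 1
    rw [← ENNReal.ofReal_natCast, ← ENNReal.ofReal_mul (cc_pos n).le, mul_comm]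
    rfl
  -- one step, assuming that the level below has a smaller maximum
  have hstep : ∀ j, (∀ i : Fin (W j), dwn j g ≤ ENNReal.ofReal (dd j) * M j) → M j ≤ M (j + 1) := by
    intro j hd
    have h1 : M j ≤ ENNReal.ofReal (bv j) * M j + ENNReal.ofReal (uu j) * M (j + 1) +
        ENNReal.ofReal (dd j) * M j := by
      refine Finset.sup_le fun i _ => (hg (vx j i)).trans ?_
      simp only [PK_apply]
      rw [tsum_pE]
      refine add_le_add (add_le_add ?_ ?_) (hd i)
      · rw [← hcard j i]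
        gcongr with i' _
        exact hle j i'
      · rw [← hup j]
        gcongr with i' _
        exact hle (j + 1) i'
    have b1 := bv_ge j
    have b2 := uu_ge j
    have b3 := dd_nonneg j
    have h2 : M j = ENNReal.ofReal (bv j) * M j + ENNReal.ofReal (uu j) * M j +
        ENNReal.ofReal (dd j) * M j := by
      rw [← add_mul, ← add_mul, ← ENNReal.ofReal_add (by linarith) (by linarith),
        ← ENNReal.ofReal_add (by linarith) b3]
      have : bv j + uu j + dd j = 1 := by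
        unfold bv
        ring
      rw [this, ENNReal.ofReal_one, one_mul]
    have hf1 : ENNReal.ofReal (dd j) * M j ≠ ∞ := ENNReal.mul_ne_top ENNReal.ofReal_ne_top (hfin j)
    have hf2 : ENNReal.ofReal (bv j) * M j ≠ ∞ := ENNReal.mul_ne_top ENNReal.ofReal_ne_top (hfin j)
    have h3 : (ENNReal.ofReal (bv j) * M j + ENNReal.ofReal (dd j) * M j) +
        ENNReal.ofReal (uu j) * M j ≤
        (ENNReal.ofReal (bv j) * M j + ENNReal.ofReal (dd j) * M j) +
        ENNReal.ofReal (uu j) * M (j + 1) := by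
      calc _ = ENNReal.ofReal (bv j) * M j + ENNReal.ofReal (uu j) * M j +
          ENNReal.ofReal (dd j) * M j := by ring
        _ = M j := h2.symm
        _ ≤ _ := h1
        _ = _ := by ring
    have h4 := (ENNReal.add_le_add_iff_left (ENNReal.add_ne_top.2 ⟨hf2, hf1⟩)).1 h3
    exact (ENNReal.mul_le_mul_iff_right (by simp; linarith) ENNReal.ofReal_ne_top).1 h4
  have main : ∀ j, M j ≤ M (j + 1) := by
    intro j
    induction j with
    | zero => exact hstep 0 fun i => by simp [dwn]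
    | succ j ih =>
      refine hstep (j + 1) fun i => ?_
      show ENNReal.ofReal (cc j) * ∑ j_1 : Fin (W j), g (vx j j_1) ≤ _
      calc ENNReal.ofReal (cc j) * ∑ j_1 : Fin (W j), g (vx j j_1)
          ≤ ENNReal.ofReal (cc j) * ∑ _j_1 : Fin (W j), M j := by
            gcongr with i' _
            exact hle j i'
        _ = ENNReal.ofReal (dd (j + 1)) * M j := hdown j (M j)
        _ ≤ _ := by gcongr
  exact main j

lemma level_max' (g : VV → ℝ≥0∞) (hg1 : ∀ x, g x ≤ 1) (hg : ∀ x, g x ≤ ∑' y, PK x y * g y)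
    (c : ℝ≥0∞) (m : ℕ) (hc : ∀ i, g (vx m i) ≤ c) (x : VV) (hx : lv x ≤ m) : g x ≤ c := by
  obtain ⟨a, i, rfl⟩ := exists_vx x
  have hmono : Monotone (fun j => Finset.univ.sup (fun i => g (vx j i))) :=
    monotone_nat_of_le_succ (level_max g hg1 hg)
  have h1 : g (vx a i) ≤ Finset.univ.sup (fun i => g (vx a i)) :=
    Finset.le_sup (f := fun i => g (vx a i)) (Finset.mem_univ i)
  exact (h1.trans (hmono hx)).trans (Finset.sup_le fun i _ => hc i)

lemma q_le_one {V : Type} [MeasurableSpace V] [DiscreteMeasurableSpace V] [Countable V]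
    (μ : PMF ℕ) (P : V → PMF V) (x y : V) : q μ P x y ≤ 1 := by
  unfold q
  calc _ ≤ ∫⁻ _ : Omega V, ∫⁻ _ : Omega V, 1 ∂(brw μ P) ∂(brw μ P) :=
      lintegral_mono fun a => lintegral_mono fun b => nm_le_one _ _ _ _ _ _
    _ = 1 := by simp

theorem q_bound (x y : VV) : q (PMF.pure 2) PK x y ≤ ENNReal.ofReal (1 - 1 / 1081600) := by
  obtain ⟨m, hm, h1, h2⟩ := exists_block (lv x + lv y)
  have step1 : ∀ i' : Fin (W m), q (PMF.pure 2) PK x (vx m i') ≤
      ENNReal.ofReal (1 - 1 / 1081600) := fun i' =>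
    level_max' (fun x => q (PMF.pure 2) PK x (vx m i')) (fun x => q_le_one _ _ _ _)
      (fun x => q_le_step _ _ _ _) _ m (fun i => q_block m h1 h2 i i') x (by omega)
  rw [q_symm]
  refine level_max' (fun y => q (PMF.pure 2) PK y x) (fun y => q_le_one _ _ _ _)
      (fun y => q_le_step _ _ _ _) _ m (fun i => ?_) y (by omega)
  rw [q_symm]
  exact step1 i

theorem q_zero (x y : VV) : q (PMF.pure 2) PK x y = 0 := by
  refine q_eq_zero (PMF.pure 2) PK _ ?_ q_bound x y
  rw [← ENNReal.ofReal_one]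
  exact (ENNReal.ofReal_lt_ofReal_iff (by norm_num)).2 (by norm_num)

/-- The main theorem. -/
theorem main_end (x : VV) : ∀ᵐ ω ∂(brw (PMF.pure 2) PK), numEnds (trace ω x) = 1 :=
  one_end PK q_zero (fun z => by
    obtain ⟨B, h1, h2⟩ := exists_green z
    exact ⟨B, h1, fun x => by convert h2 x⟩) x

end Pool.Agent.V11331.BR
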