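import Pool.Agent.V11331.BR.Level
import Pool.Agent.V11331.BR.Ends

set_option autoImplicit false
set_option linter.unusedSectionVars false

open MeasureTheory ProbabilityTheory
open scoped ENNReal

namespace Pool.Agent.V11331.BR

lemma Tr (n : ℕ) : (100 : ℝ) ≤ T n := by exact_mod_cast T_ge n

lemma Wr (n : ℕ) : (4 : ℝ) ≤ W n := by exact_mod_cast W_ge n

lemma Wr_succ (n : ℕ) : (W (n + 1) : ℝ) = 5 * T n * T (n + 1) * W n := by
  exact_mod_cast W_succ n

/-- Probability to go up. -/
noncomputable def uu (n : ℕ) : ℝ := (1 + 1 / (T n : ℝ)) / 2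

noncomputable def cc (n : ℕ) : ℝ := uu n / W (n + 1)

/-- Probability to go down. -/
noncomputable def dd : ℕ → ℝ
  | 0 => 0
  | n + 1 => W n * cc n

/-- Probability to stay in the level. -/
noncomputable def bv (n : ℕ) : ℝ := 1 - uu n - dd n

noncomputable def bb (n : ℕ) : ℝ := bv n / (W n - 1)

lemma uu_ge (n : ℕ) : 1 / 2 ≤ uu n := by
  unfold uu
  have := Tr n
  have : 0 < 1 / (T n : ℝ) := by positivity
  linarith

lemma uu_le (n : ℕ) : uu n ≤ 0.505 := by
  unfold uu
  have h := Tr n
  have : 1 / (T n : ℝ) ≤ 1 / 100 := one_div_le_one_div_of_le (by norm_num) h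
  linarith

lemma cc_pos (n : ℕ) : 0 < cc n := by
  unfold cc
  have := uu_ge n
  have := Wr (n + 1)
  positivity

lemma W_cc (n : ℕ) : (W (n + 1) : ℝ) * cc n = uu n := by
  unfold cc
  have := Wr (n + 1)
  field_simp

lemma dd_succ (n : ℕ) : dd (n + 1) = uu n / (5 * T n * T (n + 1)) := by
  have h1 := Wr n
  have h2 := Tr n
  have h3 := Tr (n + 1)
  show W n * cc n = _
  unfold cc
  rw [Wr_succ]
  field_simp

lemma dd_nonneg (n : ℕ) : 0 ≤ dd n := by
  cases n with
  | zero => exact le_rfl
  | succ n =>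
    rw [dd_succ]
    have := uu_ge n
    positivity

lemma dd_le (n : ℕ) : dd n * T n ≤ 0.00101 := by
  cases n with
  | zero => simp [dd]; norm_num
  | succ n =>
    rw [dd_succ]
    have h1 := uu_le n
    have h2 := Tr n
    have h3 := Tr (n + 1)
    have e : uu n / (5 * T n * T (n + 1)) * T (n + 1) = uu n / (5 * T n) := by
      field_simp
    rw [e, div_le_iff₀ (by positivity)]
    linarith

lemma dd_le' (n : ℕ) : dd n ≤ 0.0000101 := by
  have h1 := dd_le n
  have h2 := Tr n
  have h3 := dd_nonneg n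
  nlinarith

lemma bv_eq (n : ℕ) : bv n = 1 / 2 - 1 / (2 * T n) - dd n := by
  unfold bv uu
  have := Tr n
  field_simp
  ring

lemma bv_ge (n : ℕ) : 0.49 ≤ bv n := by
  have h1 := uu_le n
  have h2 := dd_le' n
  unfold bv
  linarith

lemma bb_pos (n : ℕ) : 0 < bb n := by
  unfold bb
  have h1 := bv_ge n
  have h2 := Wr n
  apply div_pos <;> linarith

lemma W_bb (n : ℕ) : ((W n : ℝ) - 1) * bb n = bv n := by
  unfold bb
  have h2 := Wr n
  have : (W n : ℝ) - 1 ≠ 0 := by linarith
  field_simp

lemma two_bv (n : ℕ) : 2 * bv n ≤ 1 - 1 / T n := by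
  rw [bv_eq]
  have h1 := dd_nonneg n
  have h2 := Tr n
  have : 1 / (2 * (T n : ℝ)) = (1 / T n) / 2 := by field_simp
  rw [this]
  linarith

/-- The vertices. -/
def VV : Type := Σ n : ℕ, Fin (W n)

instance : MeasurableSpace VV := ⊤
instance : DiscreteMeasurableSpace VV := ⟨fun _ => trivial⟩
instance : Countable VV := inferInstanceAs (Countable (Σ n : ℕ, Fin (W n)))
instance : DecidableEq VV := inferInstanceAs (DecidableEq (Σ n : ℕ, Fin (W n)))

/-- The vertex `i` of level `n`. -/
def vx (n : ℕ) (i : Fin (W n)) : VV := ⟨n, i⟩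

/-- The level. -/
def lv (x : VV) : ℕ := x.1

@[simp] lemma lv_vx (n : ℕ) (i : Fin (W n)) : lv (vx n i) = n := rfl

lemma vx_inj {n : ℕ} {i j : Fin (W n)} : vx n i = vx n j ↔ i = j := by
  constructor
  · intro h
    exact eq_of_heq (Sigma.mk.inj h).2
  · rintro rfl
    rfl

lemma exists_vx (x : VV) : ∃ n i, x = vx n i := ⟨x.1, x.2, rfl⟩

lemma tsum_VV (f : VV → ℝ≥0∞) : ∑' y, f y = ∑' k, ∑ i : Fin (W k), f (vx k i) := by
  have h := ENNReal.tsum_sigma' (β := fun n : ℕ => Fin (W n)) (f : (Σ n : ℕ, Fin (W n)) → ℝ≥0∞)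
  have e : ∑' y, f y = ∑' p : (Σ n : ℕ, Fin (W n)), f p := rfl
  rw [e, h]
  exact tsum_congr fun k => by rw [tsum_fintype]; rfl

lemma tsum_level (m : ℕ) (f : VV → ℝ≥0∞) :
    ∑' y : VV, (if lv y = m then f y else 0) = ∑ i : Fin (W m), f (vx m i) := by
  rw [tsum_VV, tsum_eq_single m]
  · simp
  · intro k hk
    simp [hk]

/-- The transition probabilities. -/
noncomputable def pE (x y : VV) : ℝ≥0∞ :=
  (if lv y = lv x then (if y = x then 0 else ENNReal.ofReal (bb (lv x))) else 0) +
  (if lv y = lv x + 1 then ENNReal.ofReal (cc (lv x)) else 0) +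
  (if lv y + 1 = lv x then ENNReal.ofReal (cc (lv y)) else 0)

lemma pE_symm (x y : VV) : pE x y = pE y x := by
  unfold pE
  rcases lt_trichotomy (lv x) (lv y) with h | h | h
  · rw [if_neg (by omega), if_neg (by omega : ¬ lv y + 1 = lv x),
      if_neg (by omega : ¬ lv x = lv y), if_neg (by omega : ¬ lv x = lv y + 1)]
    simp only [zero_add, add_zero]
    by_cases h' : lv y = lv x + 1
    · rw [if_pos h', if_pos h'.symm]
    · rw [if_neg h', if_neg (by omega)]
  · rw [h]
    simp only [Nat.left_eq_add, Nat.add_eq_left, one_ne_zero, if_true, if_false, add_zero]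
    by_cases h' : x = y
    · simp [h']
    · simp [h', Ne.symm h']
  · rw [if_neg (by omega), if_neg (by omega : ¬ lv y = lv x + 1),
      if_neg (by omega : ¬ lv x = lv y), if_neg (by omega : ¬ lv x + 1 = lv y)]
    simp only [zero_add, add_zero]
    by_cases h' : lv x = lv y + 1
    · rw [if_pos h', if_pos h'.symm]
    · rw [if_neg h', if_neg (by omega)]

noncomputable def dwn : ℕ → (VV → ℝ≥0∞) → ℝ≥0∞
  | 0, _ => 0
  | n + 1, f => ENNReal.ofReal (cc n) * ∑ j : Fin (W n), f (vx n j)

lemma tsum_pE (n : ℕ) (i : Fin (W n)) (f : VV → ℝ≥0∞) :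
    ∑' y, pE (vx n i) y * f y =
      ENNReal.ofReal (bb n) * ∑ j ∈ Finset.univ.erase i, f (vx n j) +
      ENNReal.ofReal (cc n) * ∑ j, f (vx (n + 1) j) + dwn n f := by
  have h1 : ∀ y, pE (vx n i) y * f y =
      (if lv y = n then (if y = vx n i then 0 else ENNReal.ofReal (bb n) * f y) else 0) +
      (if lv y = n + 1 then ENNReal.ofReal (cc n) * f y else 0) +
      (if lv y + 1 = n then ENNReal.ofReal (cc (lv y)) * f y else 0) := by
    intro y
    unfold pE
    rw [lv_vx, add_mul, add_mul]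
    congr 1
    · congr 1
      · split_ifs <;> simp
      · split_ifs <;> simp
    · split_ifs <;> simp
  simp only [h1]
  rw [ENNReal.tsum_add, ENNReal.tsum_add, tsum_level, tsum_level]
  congr 1
  · congr 1
    · rw [Finset.mul_sum, ← Finset.sum_erase (s := Finset.univ) (a := i)]
      · refine Finset.sum_congr rfl fun j hj => ?_
        rw [if_neg]
        rw [vx_inj]
        exact (Finset.mem_erase.1 hj).1
      · simp
    · rw [Finset.mul_sum]
  · cases n with
    | zero => simp [dwn]
    | succ n =>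
      have h2 : ∀ y : VV, (if lv y + 1 = n + 1 then ENNReal.ofReal (cc (lv y)) * f y else 0) =
          (if lv y = n then ENNReal.ofReal (cc n) * f y else 0) := by
        intro y
        by_cases h : lv y = n
        · simp [h]
        · simp [h]
      simp only [h2]
      rw [tsum_level, dwn, Finset.mul_sum]

lemma tsum_pE_level (n : ℕ) (i : Fin (W n)) (F : ℕ → ℝ) (hF : ∀ k, 0 ≤ F k) :
    ∑' y, pE (vx n i) y * ENNReal.ofReal (F (lv y)) =
      ENNReal.ofReal (bv n * F n + uu n * F (n + 1) + dd n * F (n - 1)) := by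
  rw [tsum_pE]
  have hb := bb_pos n
  have hc := cc_pos n
  have hbv := bv_ge n
  have huu := uu_ge n
  have hW := Wr n
  have e1 : ENNReal.ofReal (bb n) * ∑ j ∈ Finset.univ.erase i, ENNReal.ofReal (F (lv (vx n j))) =
      ENNReal.ofReal (bv n * F n) := by
    simp only [lv_vx, Finset.sum_const, nsmul_eq_mul]
    rw [Finset.card_erase_of_mem (Finset.mem_univ _), Finset.card_univ, Fintype.card_fin,
      ← W_bb n]
    have : ((W n - 1 : ℕ) : ℝ≥0∞) = ENNReal.ofReal ((W n : ℝ) - 1) := by
      rw [← ENNReal.ofReal_natCast, Nat.cast_sub (by have := W_ge n; omega), Nat.cast_one]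
    rw [this, ← ENNReal.ofReal_mul (by linarith), ← ENNReal.ofReal_mul hb.le]
    congr 1
    ring
  have e2 : ENNReal.ofReal (cc n) * ∑ j : Fin (W (n + 1)),
      ENNReal.ofReal (F (lv (vx (n + 1) j))) = ENNReal.ofReal (uu n * F (n + 1)) := by
    simp only [lv_vx, Finset.sum_const, nsmul_eq_mul, Finset.card_univ, Fintype.card_fin]
    rw [← ENNReal.ofReal_natCast, ← ENNReal.ofReal_mul (by positivity),
      ← ENNReal.ofReal_mul hc.le, ← W_cc n]
    congr 1
    ring
  have e3 : dwn n (fun y => ENNReal.ofReal (F (lv y))) = ENNReal.ofReal (dd n * F (n - 1)) := by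
    cases n with
    | zero => simp [dwn, dd]
    | succ n =>
      have hc' := cc_pos n
      simp only [dwn, lv_vx, Finset.sum_const, nsmul_eq_mul, Finset.card_univ, Fintype.card_fin,
        Nat.add_sub_cancel]
      rw [← ENNReal.ofReal_natCast, ← ENNReal.ofReal_mul (by positivity),
        ← ENNReal.ofReal_mul hc'.le]
      congr 1
      simp only [dd]
      ring
  rw [e1, e2, e3, ← ENNReal.ofReal_add (mul_nonneg (by linarith) (hF _))
    (mul_nonneg (by linarith) (hF _)), ← ENNReal.ofReal_add (add_nonneg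
    (mul_nonneg (by linarith) (hF _)) (mul_nonneg (by linarith) (hF _)))
    (mul_nonneg (dd_nonneg n) (hF _))]

lemma pE_sum (x : VV) : ∑' y, pE x y = 1 := by
  obtain ⟨n, i, rfl⟩ := exists_vx x
  have h := tsum_pE_level n i (fun _ => 1) (fun _ => zero_le_one)
  simp only [ENNReal.ofReal_one, mul_one] at h
  rw [h]
  have : bv n + uu n + dd n = 1 := by
    unfold bv
    ring
  rw [this, ENNReal.ofReal_one]

/-- The transition kernel. -/
noncomputable def PK (x : VV) : PMF VV := ⟨pE x, by
  rw [← pE_sum x]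
  exact ENNReal.summable.hasSum⟩

lemma PK_apply (x y : VV) : PK x y = pE x y := rfl

/-- The steps which do not go down. -/
noncomputable def gk (x y : VV) : ℝ≥0∞ := if lv x ≤ lv y then 1 else 0

lemma gk_sq (x y : VV) : gk x y * gk x y = gk x y := by
  unfold gk
  split_ifs <;> simp

lemma tsum_kill (n : ℕ) (i : Fin (W n)) (f : VV → ℝ≥0∞) :
    ∑' y, PK (vx n i) y * (gk (vx n i) y * f y) =
      ENNReal.ofReal (bb n) * ∑ j ∈ Finset.univ.erase i, f (vx n j) +
      ENNReal.ofReal (cc n) * ∑ j, f (vx (n + 1) j) := by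
  simp only [PK_apply]
  rw [tsum_pE]
  have e : dwn n (fun y => gk (vx n i) y * f y) = 0 := by
    cases n with
    | zero => rfl
    | succ n => simp [dwn, gk]
  rw [e, add_zero]
  congr 1
  · simp [gk]
  · simp [gk]

end Pool.Agent.V11331.BR
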