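import Mathlib

set_option autoImplicit false

namespace Pool.Agent.V11331.BR

def tv (n m w : ℕ) : ℕ := if n = m + w then w * 5 ^ w else 100

/-- The state of the construction at level `n`: width, start of the block, width at the start. -/
def st : ℕ → ℕ × ℕ × ℕ
  | 0 => (4, 0, 4)
  | n + 1 =>
    if n = (st n).2.1 + (st n).2.2 then
      (5 * tv n (st n).2.1 (st n).2.2 * 100 * (st n).1, n + 1,
        5 * tv n (st n).2.1 (st n).2.2 * 100 * (st n).1)
    else
      (5 * tv n (st n).2.1 (st n).2.2 * tv (n + 1) (st n).2.1 (st n).2.2 * (st n).1,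
        (st n).2.1, (st n).2.2)

def W (n : ℕ) : ℕ := (st n).1

def T (n : ℕ) : ℕ := tv n (st n).2.1 (st n).2.2

lemma tv_ge (n m w : ℕ) (hw : 4 ≤ w) : 100 ≤ tv n m w := by
  unfold tv
  split_ifs
  · have h1 : 5 ^ 4 ≤ 5 ^ w := Nat.pow_le_pow_right (by norm_num) hw
    calc 100 ≤ 4 * 5 ^ 4 := by norm_num
      _ ≤ w * 5 ^ w := Nat.mul_le_mul hw h1
  · exact le_rfl

lemma st_ge (n : ℕ) : 4 ≤ (st n).1 ∧ 4 ≤ (st n).2.2 := by
  induction n with
  | zero => simp [st]
  | succ n ih =>
    obtain ⟨h1, h2⟩ := ih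
    have h3 := tv_ge n (st n).2.1 (st n).2.2 h2
    have h4 := tv_ge (n + 1) (st n).2.1 (st n).2.2 h2
    rw [st]
    split_ifs
    · have : 4 ≤ 5 * tv n (st n).2.1 (st n).2.2 * 100 * (st n).1 := by
        calc 4 ≤ 1 * 4 := by norm_num
          _ ≤ (5 * tv n (st n).2.1 (st n).2.2 * 100) * (st n).1 :=
            Nat.mul_le_mul (by omega) h1
      exact ⟨this, this⟩
    · refine ⟨?_, h2⟩
      calc 4 ≤ 1 * 4 := by norm_num
        _ ≤ (5 * tv n (st n).2.1 (st n).2.2 * tv (n + 1) (st n).2.1 (st n).2.2) * (st n).1 := by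
          refine Nat.mul_le_mul ?_ h1
          calc 1 ≤ 500 * 100 := by norm_num
            _ ≤ (5 * tv n (st n).2.1 (st n).2.2) * tv (n + 1) (st n).2.1 (st n).2.2 :=
              Nat.mul_le_mul (by omega) h4

lemma W_ge (n : ℕ) : 4 ≤ W n := (st_ge n).1

lemma T_ge (n : ℕ) : 100 ≤ T n := tv_ge _ _ _ (st_ge n).2

lemma W_succ (n : ℕ) : W (n + 1) = 5 * T n * T (n + 1) * W n := by
  have h2 := (st_ge (n + 1)).2
  unfold W T
  by_cases h : n = (st n).2.1 + (st n).2.2
  · have e : st (n + 1) = (5 * tv n (st n).2.1 (st n).2.2 * 100 * (st n).1, n + 1,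
        5 * tv n (st n).2.1 (st n).2.2 * 100 * (st n).1) := by
      rw [st, if_pos h]
    have e2 : tv (n + 1) (st (n + 1)).2.1 (st (n + 1)).2.2 = 100 := by
      rw [e] at h2 ⊢
      simp only at h2 ⊢
      generalize 5 * tv n (st n).2.1 (st n).2.2 * 100 * (st n).1 = a at h2 ⊢
      unfold tv
      rw [if_neg (by omega)]
    rw [e2, e]
  · have e : st (n + 1) = (5 * tv n (st n).2.1 (st n).2.2 *
        tv (n + 1) (st n).2.1 (st n).2.2 * (st n).1, (st n).2.1, (st n).2.2) := by
      rw [st, if_neg h]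
    rw [e]

lemma block (m : ℕ) (hm : (st m).2 = (m, W m)) (i : ℕ) (hi : i ≤ W m) :
    (st (m + i)).2 = (m, W m) := by
  induction i with
  | zero => exact hm
  | succ i ih =>
    have h := ih (by omega)
    rw [← add_assoc, st, h, if_neg (by simp only; omega)]

lemma T_small (m : ℕ) (hm : (st m).2 = (m, W m)) (i : ℕ) (hi : i < W m) : T (m + i) = 100 := by
  unfold T
  rw [block m hm i hi.le]
  unfold tv
  rw [if_neg (by simp only; omega)]

lemma T_big (m : ℕ) (hm : (st m).2 = (m, W m)) : T (m + W m) = W m * 5 ^ W m := by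
  unfold T
  rw [block m hm (W m) le_rfl]
  unfold tv
  rw [if_pos rfl]

lemma exists_start (k : ℕ) : ∃ m, k ≤ m ∧ (st m).2 = (m, W m) := by
  induction k with
  | zero => exact ⟨0, le_rfl, rfl⟩
  | succ k ih =>
    obtain ⟨m, hk, hm⟩ := ih
    refine ⟨m + W m + 1, by omega, ?_⟩
    have h := block m hm (W m) le_rfl
    have e : st (m + W m + 1) = (5 * tv (m + W m) (st (m + W m)).2.1 (st (m + W m)).2.2 * 100 *
        (st (m + W m)).1, m + W m + 1,
        5 * tv (m + W m) (st (m + W m)).2.1 (st (m + W m)).2.2 * 100 * (st (m + W m)).1) := by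
      rw [st, if_pos]
      rw [h]
    unfold W
    unfold W at e
    rw [e]

/-- Arbitrarily late blocks: `w` levels with `T = 100`, then a level with `T = w 5 ^ w`, where `w`
is the width at the start. -/
lemma exists_block (k : ℕ) : ∃ m, k ≤ m ∧ (∀ i, i < W m → T (m + i) = 100) ∧
    T (m + W m) = W m * 5 ^ W m := by
  obtain ⟨m, h1, h2⟩ := exists_start k
  exact ⟨m, h1, fun i hi => T_small m h2 i hi, T_big m h2⟩

end Pool.Agent.V11331.BR
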