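import Pool.Agent.V11331.BR.Count

set_option autoImplicit false
set_option linter.unusedSectionVars false

open MeasureTheory ProbabilityTheory
open scoped ENNReal

namespace Pool.Agent.V11331.BR

variable {V : Type} [MeasurableSpace V] [DiscreteMeasurableSpace V] [Countable V]
  (μ : PMF ℕ) (P : V → PMF V)

/-- Words in the letters `0`, `1`. -/
def bin (u : List ℕ) : Prop := ∀ j ∈ u, j < 2

/-- A descendant of `u` in the first family and a descendant of `v` in the second one share a
location. -/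
def Meet (a b : Omega V) (x y : V) (u v : List ℕ) : Prop :=
  ∃ w w' : List ℕ, bin w ∧ bin w' ∧ pos a x (u ++ w) = pos b y (v ++ w')

open Classical in
noncomputable def nm (a b : Omega V) (x y : V) (u v : List ℕ) : ℝ≥0∞ :=
  if Meet a b x y u v then 0 else 1

lemma measurable_pos (x : V) (u : List ℕ) : Measurable (fun ω : Omega V => pos ω x u) := by
  induction u generalizing x with
  | nil => exact measurable_const
  | cons j u ih => exact meas_comp (fun y ω => pos ω y u) (fun y => ih y) x j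

lemma measurableSet_eqv {α : Type} [MeasurableSpace α] {f h : α → V} (hf : Measurable f)
    (hh : Measurable h) : MeasurableSet {p | f p = h p} :=
  (hf.prodMk hh) ((Set.to_countable {q : V × V | q.1 = q.2}).measurableSet)

lemma measurableSet_meet (x y : V) (u v : List ℕ) :
    MeasurableSet {p : Omega V × Omega V | Meet p.1 p.2 x y u v} := by
  have : {p : Omega V × Omega V | Meet p.1 p.2 x y u v} =
      ⋃ w : List ℕ, ⋃ w' : List ℕ, {p : Omega V × Omega V | bin w ∧ bin w' ∧
        pos p.1 x (u ++ w) = pos p.2 y (v ++ w')} := by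
    ext p
    simp only [Set.mem_iUnion, Set.mem_ofPred_eq]
    rfl
  rw [this]
  refine MeasurableSet.iUnion fun w => MeasurableSet.iUnion fun w' => ?_
  refine (MeasurableSet.const _).inter ((MeasurableSet.const _).inter ?_)
  exact measurableSet_eqv ((measurable_pos x _).comp measurable_fst)
    ((measurable_pos y _).comp measurable_snd)

lemma measurable_nm (x y : V) (u v : List ℕ) :
    Measurable (fun p : Omega V × Omega V => nm p.1 p.2 x y u v) :=
  Measurable.ite (measurableSet_meet x y u v) measurable_const measurable_const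

lemma nm_cons_left (ω b : Omega V) (x y : V) (j : ℕ) (u v : List ℕ) :
    nm ω b x y (j :: u) v = nm (fun w => ω (j :: w)) b ((ω []).2 x j) y u v := rfl

lemma nm_cons_right (ω b : Omega V) (x y : V) (j : ℕ) (u v : List ℕ) :
    nm b ω y x v (j :: u) = nm b (fun w => ω (j :: w)) y ((ω []).2 x j) v u := rfl

lemma nm_symm (a b : Omega V) (x y : V) (u v : List ℕ) : nm a b x y u v = nm b a y x v u := by
  have : Meet a b x y u v ↔ Meet b a y x v u := by
    constructor
    · rintro ⟨w, w', h1, h2, h3⟩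
      exact ⟨w', w, h2, h1, h3.symm⟩
    · rintro ⟨w, w', h1, h2, h3⟩
      exact ⟨w', w, h2, h1, h3.symm⟩
  by_cases h : Meet a b x y u v
  · simp [nm, h, this.1 h]
  · simp [nm, h, mt this.2 h]

lemma bin_cons {j : ℕ} {u : List ℕ} : bin (j :: u) ↔ j < 2 ∧ bin u := by
  simp [bin]

lemma nm_le_one (a b : Omega V) (x y : V) (u v : List ℕ) : nm a b x y u v ≤ 1 := by
  unfold nm
  split_ifs <;> simp

lemma nm_le_left (a b : Omega V) (x y : V) (j : ℕ) (hj : j < 2) (v : List ℕ) :
    nm a b x y [] v ≤ nm a b x y [j] v := by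
  by_cases h : Meet a b x y [j] v
  · have : Meet a b x y [] v := by
      obtain ⟨w, w', h1, h2, h3⟩ := h
      exact ⟨j :: w, w', bin_cons.2 ⟨hj, h1⟩, h2, h3⟩
    simp [nm, this]
  · have : nm a b x y [j] v = 1 := by simp [nm, h]
    rw [this]
    exact nm_le_one _ _ _ _ _ _

lemma nm_le_mul (a b : Omega V) (x y : V) :
    nm a b x y [] [] ≤ nm a b x y [0] [0] * nm a b x y [1] [1] := by
  by_cases h : Meet a b x y [] []
  · simp [nm, h]
  · have h' : ∀ j : ℕ, j < 2 → ¬ Meet a b x y [j] [j] := by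
      rintro j hj ⟨w, w', h1, h2, h3⟩
      exact h ⟨j :: w, j :: w', bin_cons.2 ⟨hj, h1⟩, bin_cons.2 ⟨hj, h2⟩, h3⟩
    simp [nm, h, h' 0 (by norm_num), h' 1 (by norm_num)]

/-- The probability that two independent families do not meet. -/
noncomputable def q (x y : V) : ℝ≥0∞ := ∫⁻ a, ∫⁻ b, nm a b x y [] [] ∂(brw μ P) ∂(brw μ P)

lemma swap_nm (x y : V) (u v : List ℕ) :
    ∫⁻ a, ∫⁻ b, nm a b x y u v ∂(brw μ P) ∂(brw μ P) =
      ∫⁻ b, ∫⁻ a, nm a b x y u v ∂(brw μ P) ∂(brw μ P) :=
  lintegral_lintegral_swap (measurable_nm x y u v).aemeasurable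

lemma meas_inner (x y : V) (u v : List ℕ) :
    Measurable (fun a : Omega V => ∫⁻ b, nm a b x y u v ∂(brw μ P)) :=
  (measurable_nm x y u v).lintegral_prod_right'

lemma meas_inner' (x y : V) (u v : List ℕ) :
    Measurable (fun b : Omega V => ∫⁻ a, nm a b x y u v ∂(brw μ P)) :=
  ((measurable_nm x y u v).comp measurable_swap).lintegral_prod_right'

lemma q_symm (x y : V) : q μ P x y = q μ P y x := by
  unfold q
  rw [swap_nm]
  simp only [nm_symm _ _ x y]

lemma q_le_step (x y : V) : q μ P x y ≤ ∑' x', P x x' * q μ P x' y := by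
  have h := lintegral_child μ P x (fun x' a => ∫⁻ b, nm a b x' y [] [] ∂(brw μ P))
    (fun x' => meas_inner μ P x' y [] []) 0 (by norm_num)
  unfold q
  rw [← h]
  exact lintegral_mono fun ω => lintegral_mono fun b => nm_le_left ω b x y 0 (by norm_num) []

lemma q_le_sq (Q : ℝ≥0∞) (hQ : ∀ x y, q μ P x y ≤ Q) (x y : V) : q μ P x y ≤ Q * Q := by
  have h1 : q μ P x y ≤ ∫⁻ a, ∫⁻ b, nm a b x y [0] [0] * nm a b x y [1] [1]
      ∂(brw μ P) ∂(brw μ P) := lintegral_mono fun a => lintegral_mono fun b => nm_le_mul a b x y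
  refine h1.trans ?_
  set G : V → Omega V → ℝ≥0∞ := fun x' a => ∑' y', P y y' * ∫⁻ b, nm a b x' y' [] [] ∂(brw μ P)
    with hG
  have mG : ∀ x', Measurable (G x') := fun x' =>
    Measurable.tsum fun y' => (meas_inner μ P x' y' [] []).const_mul _
  have h2 : ∀ a : Omega V, ∫⁻ b, nm a b x y [0] [0] * nm a b x y [1] [1] ∂(brw μ P) =
      G ((a []).2 x 0) (fun w => a (0 :: w)) * G ((a []).2 x 1) (fun w => a (1 :: w)) := by
    intro a
    have h := lintegral_split μ P y (fun y0 y1 b0 b1 =>
      nm (fun w => a (0 :: w)) b0 ((a []).2 x 0) y0 [] [] *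
      nm (fun w => a (1 :: w)) b1 ((a []).2 x 1) y1 [] []) (fun y0 y1 =>
      (((measurable_nm _ y0 [] []).comp measurable_prodMk_left).comp measurable_fst).mul
        (((measurable_nm _ y1 [] []).comp measurable_prodMk_left).comp measurable_snd))
    have e : ∀ b : Omega V, nm a b x y [0] [0] * nm a b x y [1] [1] =
      nm (fun w => a (0 :: w)) (fun w => b (0 :: w)) ((a []).2 x 0) ((b []).2 y 0) [] [] *
      nm (fun w => a (1 :: w)) (fun w => b (1 :: w)) ((a []).2 x 1) ((b []).2 y 1) [] [] :=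
      fun _ => rfl
    simp only [e]
    rw [h]
    have h3 : ∀ y0 y1 : V, ∫⁻ b0, ∫⁻ b1, nm (fun w => a (0 :: w)) b0 ((a []).2 x 0) y0 [] [] *
        nm (fun w => a (1 :: w)) b1 ((a []).2 x 1) y1 [] [] ∂(brw μ P) ∂(brw μ P) =
        (∫⁻ b, nm (fun w => a (0 :: w)) b ((a []).2 x 0) y0 [] [] ∂(brw μ P)) *
        (∫⁻ b, nm (fun w => a (1 :: w)) b ((a []).2 x 1) y1 [] [] ∂(brw μ P)) := by
      intro y0 y1
      have m0 : Measurable (fun b => nm (fun w => a (0 :: w)) b ((a []).2 x 0) y0 [] []) :=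
        (measurable_nm _ y0 [] []).comp measurable_prodMk_left
      have m1 : Measurable (fun b => nm (fun w => a (1 :: w)) b ((a []).2 x 1) y1 [] []) :=
        (measurable_nm _ y1 [] []).comp measurable_prodMk_left
      exact lintegral_lintegral_mul m0.aemeasurable m1.aemeasurable
    simp only [h3]
    rw [tsum_pmf_mul]
  simp only [h2]
  have h := lintegral_split μ P x (fun x0 x1 a0 a1 => G x0 a0 * G x1 a1) (fun x0 x1 =>
    ((mG x0).comp measurable_fst).mul ((mG x1).comp measurable_snd))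
  rw [h]
  have h3 : ∀ x0 x1 : V, ∫⁻ a0, ∫⁻ a1, G x0 a0 * G x1 a1 ∂(brw μ P) ∂(brw μ P) =
      (∫⁻ a, G x0 a ∂(brw μ P)) * (∫⁻ a, G x1 a ∂(brw μ P)) := fun x0 x1 =>
    lintegral_lintegral_mul (mG x0).aemeasurable (mG x1).aemeasurable
  simp only [h3]
  rw [tsum_pmf_mul]
  have h4 : ∀ x0, ∫⁻ a, G x0 a ∂(brw μ P) ≤ Q := by
    intro x0
    rw [hG]
    simp only
    rw [lintegral_tsum fun y' => ((meas_inner μ P x0 y' [] []).const_mul _).aemeasurable]
    have h5 : ∀ y', ∫⁻ a, P y y' * ∫⁻ b, nm a b x0 y' [] [] ∂(brw μ P) ∂(brw μ P) ≤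
        P y y' * Q := by
      intro y'
      rw [lintegral_const_mul _ (meas_inner μ P x0 y' [] [])]
      exact mul_le_mul_right (hQ x0 y') _
    refine (ENNReal.tsum_le_tsum h5).trans ?_
    rw [ENNReal.tsum_mul_right, (P y).tsum_coe, one_mul]
  have h6 : ∑' y_1, P x y_1 * ∫⁻ a, G y_1 a ∂(brw μ P) ≤ Q := by
    refine (ENNReal.tsum_le_tsum fun y' => mul_le_mul_right (h4 y') _).trans ?_
    rw [ENNReal.tsum_mul_right, (P x).tsum_coe, one_mul]
  exact mul_le_mul' h6 h6

lemma q_eq_zero (c : ℝ≥0∞) (hc : c < 1) (h : ∀ x y, q μ P x y ≤ c) (x y : V) :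
    q μ P x y = 0 := by
  set Q : ℝ≥0∞ := ⨆ x, ⨆ y, q μ P x y with hQ
  have h1 : ∀ x y, q μ P x y ≤ Q := fun x y => le_iSup_of_le x (le_iSup_of_le y le_rfl)
  have h2 : Q ≤ c := iSup_le fun x => iSup_le fun y => h x y
  have h3 : Q ≤ Q * Q := iSup_le fun x => iSup_le fun y => q_le_sq μ P Q h1 x y
  have h4 : Q ≤ c * Q := h3.trans (mul_le_mul_left h2 _)
  have h5 : Q = 0 := by
    by_contra h0
    have hfin : Q ≠ ∞ := (h2.trans_lt (hc.trans_le le_top)).ne
    have : c * Q < 1 * Q := (ENNReal.mul_lt_mul_iff_left h0 hfin).2 hc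
    rw [one_mul] at this
    exact absurd h4 (not_le.2 this)
  exact le_antisymm ((h1 x y).trans h5.le) bot_le

section zero

variable (hq : ∀ x y, q μ P x y = 0)

include hq

lemma claimA (u v : List ℕ) (hu : bin u) (hv : bin v) (x y : V) :
    ∫⁻ a, ∫⁻ b, nm a b x y u v ∂(brw μ P) ∂(brw μ P) = 0 := by
  induction u generalizing x with
  | nil =>
    induction v generalizing y with
    | nil => exact hq x y
    | cons j v ih =>
      rw [swap_nm]
      have h := lintegral_child μ P y (fun y' b => ∫⁻ a, nm a b x y' [] v ∂(brw μ P))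
        (fun y' => meas_inner' μ P x y' [] v) j (bin_cons.1 hv).1
      have e : ∫⁻ b, ∫⁻ a, nm a b x y [] (j :: v) ∂(brw μ P) ∂(brw μ P) =
        ∫⁻ b, ∫⁻ a, nm a (fun w => b (j :: w)) x ((b []).2 y j) [] v ∂(brw μ P) ∂(brw μ P) := rfl
      rw [e, h, ENNReal.tsum_eq_zero]
      intro y'
      rw [← swap_nm, ih (bin_cons.1 hv).2, mul_zero]
  | cons j u ih =>
    have h := lintegral_child μ P x (fun x' a => ∫⁻ b, nm a b x' y u v ∂(brw μ P))
      (fun x' => meas_inner μ P x' y u v) j (bin_cons.1 hu).1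
    have e : ∫⁻ a, ∫⁻ b, nm a b x y (j :: u) v ∂(brw μ P) ∂(brw μ P) =
      ∫⁻ a, ∫⁻ b, nm (fun w => a (j :: w)) b ((a []).2 x j) y u v ∂(brw μ P) ∂(brw μ P) := rfl
    rw [e, h, ENNReal.tsum_eq_zero]
    intro x'
    rw [ih (bin_cons.1 hu).2, mul_zero]

lemma claimB (u v : List ℕ) (hu : bin u) (hv : bin v) (hl : u.length = v.length) (hne : u ≠ v)
    (x : V) : ∫⁻ ω, nm ω ω x x u v ∂(brw μ P) = 0 := by
  induction u generalizing x v with
  | nil =>
    exact absurd (List.length_eq_zero_iff.1 hl.symm).symm hne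
  | cons i u ih =>
    cases v with
    | nil => simp at hl
    | cons j v =>
      obtain ⟨hi, hu'⟩ := bin_cons.1 hu
      obtain ⟨hj, hv'⟩ := bin_cons.1 hv
      by_cases hij : i = j
      · subst hij
        have h := lintegral_child μ P x (fun x' a => nm a a x' x' u v)
          (fun x' => (measurable_nm x' x' u v).comp (measurable_id.prodMk measurable_id)) i hi
        have e : ∫⁻ ω, nm ω ω x x (i :: u) (i :: v) ∂(brw μ P) =
          ∫⁻ ω, nm (fun w => ω (i :: w)) (fun w => ω (i :: w)) ((ω []).2 x i) ((ω []).2 x i) u v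
            ∂(brw μ P) := rfl
        rw [e, h, ENNReal.tsum_eq_zero]
        intro x'
        rw [ih v hu' hv' (by simpa using hl) (by
          rintro rfl
          exact hne rfl), mul_zero]
      · have hcase : (i = 0 ∧ j = 1) ∨ (i = 1 ∧ j = 0) := by omega
        rcases hcase with ⟨rfl, rfl⟩ | ⟨rfl, rfl⟩
        · have h := lintegral_split μ P x (fun y z a b => nm a b y z u v)
            (fun y z => measurable_nm y z u v)
          have e : ∫⁻ ω, nm ω ω x x (0 :: u) (1 :: v) ∂(brw μ P) =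
            ∫⁻ ω, nm (fun w => ω (0 :: w)) (fun w => ω (1 :: w)) ((ω []).2 x 0) ((ω []).2 x 1) u v
              ∂(brw μ P) := rfl
          rw [e, h, ENNReal.tsum_eq_zero]
          intro y
          rw [ENNReal.tsum_eq_zero]
          intro z
          rw [claimA μ P hq u v hu' hv', mul_zero, mul_zero]
        · have h := lintegral_split μ P x (fun y z a b => nm b a z y u v)
            (fun y z => (measurable_nm z y u v).comp measurable_swap)
          have e : ∫⁻ ω, nm ω ω x x (1 :: u) (0 :: v) ∂(brw μ P) =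
            ∫⁻ ω, nm (fun w => ω (1 :: w)) (fun w => ω (0 :: w)) ((ω []).2 x 1) ((ω []).2 x 0) u v
              ∂(brw μ P) := rfl
          rw [e, h, ENNReal.tsum_eq_zero]
          intro y
          rw [ENNReal.tsum_eq_zero]
          intro z
          rw [← swap_nm, claimA μ P hq u v hu' hv', mul_zero, mul_zero]

end zero

open Classical in
lemma cnt_ne_zero (g : V → V → ℝ≥0∞) (t : ℕ) (ω : Omega V) (x z : V) (h : cnt g t ω x z ≠ 0) :
    ∃ w, bin w ∧ pos ω x w = z := by
  induction t generalizing ω x with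
  | zero => exact absurd rfl h
  | succ t ih =>
    have e : cnt g (t + 1) ω x z = (if x = z then 1 else 0) +
      g x ((ω []).2 x 0) * cnt g t (fun w => ω (0 :: w)) ((ω []).2 x 0) z +
      g x ((ω []).2 x 1) * cnt g t (fun w => ω (1 :: w)) ((ω []).2 x 1) z := rfl
    by_cases hx : x = z
    · exact ⟨[], by simp [bin], hx⟩
    · rw [e, if_neg hx, zero_add] at h
      by_cases h0 : cnt g t (fun w => ω (0 :: w)) ((ω []).2 x 0) z = 0
      · by_cases h1 : cnt g t (fun w => ω (1 :: w)) ((ω []).2 x 1) z = 0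
        · rw [h0, h1] at h
          simp at h
        · obtain ⟨w, hw, hp⟩ := ih _ _ h1
          exact ⟨1 :: w, bin_cons.2 ⟨by norm_num, hw⟩, hp⟩
      · obtain ⟨w, hw, hp⟩ := ih _ _ h0
        exact ⟨0 :: w, bin_cons.2 ⟨by norm_num, hw⟩, hp⟩

/-- Second moment method. -/
lemma q_le_of_moments (g : V → V → ℝ≥0∞) (t : ℕ) (x y : V) (Z : Finset V) (m K : ℝ) (hm : 0 < m)
    (hK : 1 ≤ K) (h1 : ENNReal.ofReal m ≤ ∑ z ∈ Z, fm μ P g t x z * fm μ P g t y z)
    (h2 : ∑ z ∈ Z, ∑ z' ∈ Z, sm μ P g t x z z' * sm μ P g t y z z' ≤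
      ENNReal.ofReal (K * m ^ 2)) :
    q μ P x y ≤ ENNReal.ofReal (1 - 1 / K) := by
  classical
  set I : Omega V → Omega V → ℝ≥0∞ := fun a b => ∑ z ∈ Z, cnt g t a x z * cnt g t b y z with hI
  have hEI : ∫⁻ a, ∫⁻ b, I a b ∂(brw μ P) ∂(brw μ P) =
      ∑ z ∈ Z, fm μ P g t x z * fm μ P g t y z := by
    have e1 : ∀ a, ∫⁻ b, I a b ∂(brw μ P) = ∑ z ∈ Z, cnt g t a x z * fm μ P g t y z := by
      intro a
      rw [hI]
      simp only
      rw [lintegral_finsetSum _ fun z _ => (measurable_cnt g t y z).const_mul _]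
      refine Finset.sum_congr rfl fun z _ => ?_
      rw [lintegral_const_mul _ (measurable_cnt g t y z)]
      rfl
    simp only [e1]
    rw [lintegral_finsetSum _ fun z _ => (measurable_cnt g t x z).mul_const _]
    refine Finset.sum_congr rfl fun z _ => ?_
    rw [lintegral_mul_const _ (measurable_cnt g t x z)]
    rfl
  have hEI2 : ∫⁻ a, ∫⁻ b, I a b * I a b ∂(brw μ P) ∂(brw μ P) =
      ∑ z ∈ Z, ∑ z' ∈ Z, sm μ P g t x z z' * sm μ P g t y z z' := by
    have e0 : ∀ a b, I a b * I a b = ∑ z ∈ Z, ∑ z' ∈ Z, (cnt g t a x z * cnt g t a x z') *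
        (cnt g t b y z * cnt g t b y z') := by
      intro a b
      rw [hI]
      simp only
      rw [Finset.sum_mul_sum]
      exact Finset.sum_congr rfl fun z _ => Finset.sum_congr rfl fun z' _ => by ring
    have mm : ∀ x z z' : V, Measurable (fun ω : Omega V => cnt g t ω x z * cnt g t ω x z') :=
      fun x z z' => (measurable_cnt g t x z).mul (measurable_cnt g t x z')
    have e1 : ∀ a, ∫⁻ b, I a b * I a b ∂(brw μ P) =
        ∑ z ∈ Z, ∑ z' ∈ Z, (cnt g t a x z * cnt g t a x z') * sm μ P g t y z z' := by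
      intro a
      simp only [e0]
      rw [lintegral_finsetSum _ fun z _ => Finset.measurable_sum _ fun z' _ =>
        (mm y z z').const_mul _]
      refine Finset.sum_congr rfl fun z _ => ?_
      rw [lintegral_finsetSum _ fun z' _ => (mm y z z').const_mul _]
      refine Finset.sum_congr rfl fun z' _ => ?_
      rw [lintegral_const_mul _ (mm y z z')]
      rfl
    simp only [e1]
    rw [lintegral_finsetSum _ fun z _ => Finset.measurable_sum _ fun z' _ =>
        (mm x z z').mul_const _]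
    refine Finset.sum_congr rfl fun z _ => ?_
    rw [lintegral_finsetSum _ fun z' _ => (mm x z z').mul_const _]
    refine Finset.sum_congr rfl fun z' _ => ?_
    rw [lintegral_mul_const _ (mm x z z')]
    rfl
  have mI : Measurable (fun p : Omega V × Omega V => I p.1 p.2) :=
    Finset.measurable_sum _ fun z _ => ((measurable_cnt g t x z).comp measurable_fst).mul
      ((measurable_cnt g t y z).comp measurable_snd)
  set c : ℝ≥0∞ := ENNReal.ofReal (K * m) with hc
  -- pointwise inequality
  have hpt : ∀ a b : Omega V, 2 * c * I a b + c * c * nm a b x y [] [] ≤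
      I a b * I a b + c * c := by
    intro a b
    by_cases hM : Meet a b x y [] []
    · have : nm a b x y [] [] = 0 := by simp [nm, hM]
      rw [this, mul_zero, add_zero]
      have hsq : ∀ s r : ℝ≥0∞, 2 * s * r ≤ r * r + s * s := by
        intro s r
        rcases le_total s r with h | h
        · obtain ⟨d, rfl⟩ := exists_add_of_le h
          calc 2 * s * (s + d) ≤ 2 * s * (s + d) + d * d := le_self_add
            _ = (s + d) * (s + d) + s * s := by ring
        · obtain ⟨d, rfl⟩ := exists_add_of_le h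
          calc 2 * (r + d) * r ≤ 2 * (r + d) * r + d * d := le_self_add
            _ = r * r + (r + d) * (r + d) := by ring
      exact hsq c (I a b)
    · have h0 : I a b = 0 := by
        rw [hI]
        simp only
        refine Finset.sum_eq_zero fun z _ => ?_
        by_contra hne
        obtain ⟨w, hw, hpw⟩ := cnt_ne_zero g t a x z (left_ne_zero_of_mul hne)
        obtain ⟨w', hw', hpw'⟩ := cnt_ne_zero g t b y z (right_ne_zero_of_mul hne)
        exact hM ⟨w, w', hw, hw', by rw [List.nil_append, List.nil_append, hpw, hpw']⟩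
      rw [h0]
      simp only [mul_zero, zero_add]
      exact mul_le_of_le_one_right' (nm_le_one _ _ _ _ _ _)
  have hint : 2 * c * (∑ z ∈ Z, fm μ P g t x z * fm μ P g t y z) + c * c * q μ P x y ≤
      (∑ z ∈ Z, ∑ z' ∈ Z, sm μ P g t x z z' * sm μ P g t y z z') + c * c := by
    have h := lintegral_mono (μ := brw μ P) fun a =>
      lintegral_mono (μ := brw μ P) fun b => hpt a b
    have e1 : ∫⁻ a, ∫⁻ b, (2 * c * I a b + c * c * nm a b x y [] []) ∂(brw μ P) ∂(brw μ P) =
        2 * c * (∑ z ∈ Z, fm μ P g t x z * fm μ P g t y z) + c * c * q μ P x y := by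
      have e2 : ∀ a, ∫⁻ b, (2 * c * I a b + c * c * nm a b x y [] []) ∂(brw μ P) =
          2 * c * (∫⁻ b, I a b ∂(brw μ P)) + c * c * ∫⁻ b, nm a b x y [] [] ∂(brw μ P) := by
        intro a
        have m1 : Measurable (fun b => I a b) := mI.comp measurable_prodMk_left
        have m2 : Measurable (fun b => nm a b x y [] []) :=
          (measurable_nm x y [] []).comp measurable_prodMk_left
        rw [lintegral_add_left (m1.const_mul _), lintegral_const_mul _ m1,
          lintegral_const_mul _ m2]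
      simp only [e2]
      rw [lintegral_add_left (mI.lintegral_prod_right'.const_mul _),
        lintegral_const_mul _ mI.lintegral_prod_right',
        lintegral_const_mul _ (meas_inner μ P x y [] []), hEI]
      rfl
    have e3 : ∫⁻ a, ∫⁻ b, (I a b * I a b + c * c) ∂(brw μ P) ∂(brw μ P) =
        (∑ z ∈ Z, ∑ z' ∈ Z, sm μ P g t x z z' * sm μ P g t y z z') + c * c := by
      have e4 : ∀ a, ∫⁻ b, (I a b * I a b + c * c) ∂(brw μ P) =
          (∫⁻ b, I a b * I a b ∂(brw μ P)) + c * c := by
        intro a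
        rw [lintegral_add_right _ measurable_const, lintegral_const, measure_univ, mul_one]
      simp only [e4]
      rw [lintegral_add_right _ measurable_const, lintegral_const, measure_univ, mul_one, hEI2]
    rw [e1, e3] at h
    exact h
  have hq1 : q μ P x y ≤ 1 := by
    unfold q
    calc _ ≤ ∫⁻ _ : Omega V, ∫⁻ _ : Omega V, 1 ∂(brw μ P) ∂(brw μ P) :=
        lintegral_mono fun a => lintegral_mono fun b => nm_le_one _ _ _ _ _ _
      _ = 1 := by simp
  have hqf : q μ P x y ≠ ∞ := (hq1.trans_lt ENNReal.one_lt_top).ne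
  set r : ℝ := (q μ P x y).toReal with hr
  have hqr : q μ P x y = ENNReal.ofReal r := (ENNReal.ofReal_toReal hqf).symm
  have hr0 : 0 ≤ r := ENNReal.toReal_nonneg
  rw [hqr] at hint ⊢
  have hKm : 0 < K * m := by positivity
  have hfin : ENNReal.ofReal (2 * (K * m) * m + (K * m) * (K * m) * r) ≤
      ENNReal.ofReal (K * m ^ 2 + (K * m) * (K * m)) := by
    have e2 : (2 : ℝ≥0∞) = ENNReal.ofReal 2 := by simp
    rw [ENNReal.ofReal_add (by positivity) (by positivity),
      ENNReal.ofReal_add (by positivity) (by positivity),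
      ENNReal.ofReal_mul (by positivity), ENNReal.ofReal_mul (by positivity),
      ENNReal.ofReal_mul (by positivity : (0 : ℝ) ≤ K * m * (K * m)),
      ENNReal.ofReal_mul hKm.le, ← e2]
    calc 2 * ENNReal.ofReal (K * m) * ENNReal.ofReal m +
          ENNReal.ofReal (K * m) * ENNReal.ofReal (K * m) * ENNReal.ofReal r
        ≤ 2 * c * (∑ z ∈ Z, fm μ P g t x z * fm μ P g t y z) + c * c * ENNReal.ofReal r := by
          gcongr
      _ ≤ _ := hint
      _ ≤ _ := by gcongr
  rw [ENNReal.ofReal_le_ofReal_iff (by positivity)] at hfin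
  apply ENNReal.ofReal_le_ofReal
  have h3 : K ^ 2 * m ^ 2 * r ≤ K ^ 2 * m ^ 2 - K * m ^ 2 := by nlinarith
  have hm2 : 0 < K ^ 2 * m ^ 2 := by positivity
  have h4 : r ≤ (K ^ 2 * m ^ 2 - K * m ^ 2) / (K ^ 2 * m ^ 2) := by
    rw [le_div_iff₀ hm2]
    linarith
  have h5 : (K ^ 2 * m ^ 2 - K * m ^ 2) / (K ^ 2 * m ^ 2) = 1 - 1 / K := by
    have : K ≠ 0 := by positivity
    field_simp
  linarith

end Pool.Agent.V11331.BR
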