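import Pool.Agent.V11331.BR.Rho2

set_option autoImplicit false
set_option linter.unusedSectionVars false

open MeasureTheory ProbabilityTheory Filter Topology
open scoped ENNReal

namespace Pool.Agent.V11331.BR

lemma sum_erase_const (n : ℕ) (i : Fin (W n)) (a : ℝ) :
    ENNReal.ofReal (bb n) * ∑ _j ∈ Finset.univ.erase i, ENNReal.ofReal a =
      ENNReal.ofReal (bv n * a) := by
  have hW := Wr n
  have hb := bb_pos n
  have hbv := bv_ge n
  rw [Finset.sum_const, Finset.card_erase_of_mem (Finset.mem_univ _), Finset.card_univ,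
    Fintype.card_fin, nsmul_eq_mul, ← mul_assoc]
  have e2 : ENNReal.ofReal (bb n) * ((W n - 1 : ℕ) : ℝ≥0∞) = ENNReal.ofReal (bv n) := by
    have : ((W n - 1 : ℕ) : ℝ≥0∞) = ENNReal.ofReal ((W n : ℝ) - 1) := by
      rw [← ENNReal.ofReal_natCast, Nat.cast_sub (by have := W_ge n; omega), Nat.cast_one]
    rw [this, ← ENNReal.ofReal_mul hb.le, mul_comm, W_bb]
  rw [e2, ← ENNReal.ofReal_mul (by linarith)]

lemma sum_up_const (n : ℕ) (a : ℝ) :
    ENNReal.ofReal (cc n) * ENNReal.ofReal (W (n + 1) * a) = ENNReal.ofReal (uu n * a) := by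
  rw [← ENNReal.ofReal_mul (cc_pos n).le, ← W_cc n]
  congr 1
  ring

lemma sum_sum_erase (n : ℕ) (f : Fin (W n) → ℝ≥0∞) :
    ENNReal.ofReal (bb n) * ∑ i : Fin (W n), ∑ j ∈ Finset.univ.erase i, f j =
      ENNReal.ofReal (bv n) * ∑ j, f j := by
  have h : ∑ i : Fin (W n), ∑ j ∈ Finset.univ.erase i, f j =
      ∑ j : Fin (W n), ∑ _i ∈ Finset.univ.erase j, f j := by
    apply Finset.sum_comm'
    intro x y
    simp [ne_comm]
  rw [h]
  simp only [Finset.sum_const, Finset.card_erase_of_mem (Finset.mem_univ _), Finset.card_univ,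
    Fintype.card_fin, nsmul_eq_mul]
  rw [← Finset.mul_sum, ← mul_assoc]
  congr 1
  have hW := Wr n
  have : ((W n - 1 : ℕ) : ℝ≥0∞) = ENNReal.ofReal ((W n : ℝ) - 1) := by
    rw [← ENNReal.ofReal_natCast, Nat.cast_sub (by have := W_ge n; omega), Nat.cast_one]
  rw [this, ← ENNReal.ofReal_mul (bb_pos n).le, mul_comm, W_bb]

/-- The first moments (for the target level `n`). -/
noncomputable def AA (n : ℕ) : ℕ → ℕ → ℝ
  | 0, _ => 0
  | t + 1, j => (if j = n then 1 / (W n : ℝ) else 0) + 2 * bv j * AA n t j +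
      (if j < n then 2 * uu j * AA n t (j + 1) else 0)

lemma AA_nonneg (n t j : ℕ) : 0 ≤ AA n t j := by
  induction t generalizing j with
  | zero => exact le_rfl
  | succ t ih =>
    have h1 := bv_ge j
    have h2 := uu_ge j
    have h3 := Wr n
    have h4 := ih j
    have h5 := ih (j + 1)
    unfold AA
    split_ifs <;> positivity

variable (μ : PMF ℕ)

lemma fm_above (t n l : ℕ) (h : n < l) (i : Fin (W l)) (k : Fin (W n)) :
    fm μ PK gk t (vx l i) (vx n k) = 0 := by
  induction t generalizing l with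
  | zero => simp [fm, cnt]
  | succ t ih =>
    rw [fm_succ, if_neg, tsum_kill]
    · simp [ih l h, ih (l + 1) (by omega)]
    · intro he
      have := congrArg lv he
      simp at this
      omega

lemma sm_above (t n l : ℕ) (h : n < l) (i : Fin (W l)) (k k' : Fin (W n)) :
    sm μ PK gk t (vx l i) (vx n k) (vx n k') = 0 := by
  have h1 : ∀ᵐ ω ∂(brw μ PK), cnt gk t ω (vx l i) (vx n k) = 0 := by
    have := fm_above μ t n l h i k
    unfold fm at this
    rw [lintegral_eq_zero_iff (measurable_cnt gk t _ _)] at this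
    exact this
  unfold sm
  have h2 : ∫⁻ ω, cnt gk t ω (vx l i) (vx n k) * cnt gk t ω (vx l i) (vx n k') ∂(brw μ PK) =
      ∫⁻ _, 0 ∂(brw μ PK) := by
    apply lintegral_congr_ae
    filter_upwards [h1] with ω hω
    rw [hω, zero_mul]
  rw [h2, lintegral_zero]

lemma fm_level (n : ℕ) (k : Fin (W n)) (t : ℕ) :
    (∀ j, j < n → ∀ i, fm μ PK gk t (vx j i) (vx n k) = ENNReal.ofReal (AA n t j)) ∧
      ∑ i, fm μ PK gk t (vx n i) (vx n k) = ENNReal.ofReal (W n * AA n t n) := by
  induction t with
  | zero => simp [fm, cnt, AA]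
  | succ t ih =>
    obtain ⟨ih1, ih2⟩ := ih
    have hup : ∀ j, j < n → ∑ i, fm μ PK gk t (vx (j + 1) i) (vx n k) =
        ENNReal.ofReal (W (j + 1) * AA n t (j + 1)) := by
      intro j hj
      rcases Nat.lt_or_ge (j + 1) n with h | h
      · simp only [ih1 (j + 1) h, Finset.sum_const, Finset.card_univ, Fintype.card_fin,
          nsmul_eq_mul]
        rw [← ENNReal.ofReal_natCast, ← ENNReal.ofReal_mul (by positivity)]
      · have : j + 1 = n := by omega
        subst this
        exact ih2
    have e2 : (2 : ℝ≥0∞) = ENNReal.ofReal 2 := by simp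
    constructor
    · intro j hj i
      rw [fm_succ, if_neg, tsum_kill, hup j hj]
      · simp only [ih1 j hj]
        rw [sum_erase_const, sum_up_const, zero_add, e2]
        have h1 := bv_ge j
        have h2 := uu_ge j
        have h4 := AA_nonneg n t j
        have h5 := AA_nonneg n t (j + 1)
        rw [← ENNReal.ofReal_add (by positivity) (by positivity),
          ← ENNReal.ofReal_mul (by norm_num)]
        congr 1
        rw [AA, if_neg (by omega), if_pos hj]
        ring
      · intro he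
        have := congrArg lv he
        simp at this
        omega
    · have h1 : ∀ i, fm μ PK gk (t + 1) (vx n i) (vx n k) = (if i = k then 1 else 0) +
          2 * (ENNReal.ofReal (bb n) * ∑ j ∈ Finset.univ.erase i,
            fm μ PK gk t (vx n j) (vx n k)) := by
        intro i
        rw [fm_succ, tsum_kill]
        have h0 : ∑ j, fm μ PK gk t (vx (n + 1) j) (vx n k) = 0 :=
          Finset.sum_eq_zero fun j _ => fm_above μ t n (n + 1) (by omega) j k
        rw [h0, mul_zero, add_zero]
        congr 1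
        by_cases h : i = k
        · rw [if_pos h, if_pos (by rw [h])]
        · rw [if_neg h, if_neg (by rwa [vx_inj])]
      simp only [h1]
      rw [Finset.sum_add_distrib, ← Finset.mul_sum, ← Finset.mul_sum, sum_sum_erase, ih2,
        Finset.sum_ite_eq' Finset.univ k, if_pos (Finset.mem_univ _), e2]
      have h3 := bv_ge n
      have h4 := AA_nonneg n t n
      have h5 := Wr n
      rw [← ENNReal.ofReal_mul (by linarith), ← ENNReal.ofReal_mul (by norm_num),
        ← ENNReal.ofReal_one, ← ENNReal.ofReal_add (by norm_num) (by positivity)]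
      congr 1
      rw [AA, if_pos rfl, if_neg (lt_irrefl n)]
      field_simp
      ring

/-- Indicator. -/
noncomputable def ind {n : ℕ} (i k : Fin (W n)) : ℝ := if i = k then 1 else 0

lemma ind_nonneg {n : ℕ} (i k : Fin (W n)) : 0 ≤ ind i k := by
  unfold ind
  split_ifs <;> norm_num

lemma ind_le {n : ℕ} (i k : Fin (W n)) : ind i k ≤ 1 := by
  unfold ind
  split_ifs <;> norm_num

lemma sum_ind {n : ℕ} (k : Fin (W n)) (s : Finset (Fin (W n))) : ∑ j ∈ s, ind j k ≤ 1 := by
  calc ∑ j ∈ s, ind j k ≤ ∑ j, ind j k :=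
      Finset.sum_le_sum_of_subset_of_nonneg (Finset.subset_univ _) (fun _ _ _ => ind_nonneg _ _)
    _ = 1 := by simp [ind]

noncomputable def rr (n : ℕ) : ℝ := 1 / ((W n : ℝ) - 1)

lemma rr_pos (n : ℕ) : 0 < rr n := by
  unfold rr
  have := Wr n
  apply div_pos <;> linarith

lemma bb_eq (n : ℕ) : bb n = bv n * rr n := by
  unfold bb rr
  ring

lemma W_rr (n : ℕ) : ((W n : ℝ) - 1) * rr n = 1 := by
  unfold rr
  have := Wr n
  have : (W n : ℝ) - 1 ≠ 0 := by linarith
  field_simp

lemma key_T (n : ℕ) : 2 * bv n * (1 + T n) ≤ T n := by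
  have h1 := two_bv n
  have h2 := Tr n
  have h3 : 2 * bv n * (1 + T n) ≤ (1 - 1 / T n) * (1 + T n) :=
    mul_le_mul_of_nonneg_right h1 (by linarith)
  have h4 : (1 - 1 / (T n : ℝ)) * (1 + T n) = T n - 1 / T n := by
    field_simp
    ring
  have h5 : 0 < 1 / (T n : ℝ) := by positivity
  linarith

lemma fm_point (n : ℕ) (k : Fin (W n)) (t : ℕ) (i : Fin (W n)) :
    fm μ PK gk t (vx n i) (vx n k) ≤ ENNReal.ofReal (ind i k + T n * rr n) ∧
    2 * ∑' y, PK (vx n i) y * (gk (vx n i) y * fm μ PK gk t y (vx n k)) ≤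
      ENNReal.ofReal (T n * rr n) := by
  have hT := Tr n
  have hr := rr_pos n
  have hb := bb_pos n
  have hbv := bv_ge n
  have e2 : (2 : ℝ≥0∞) = ENNReal.ofReal 2 := by simp
  have main : ∀ t, (∀ i, fm μ PK gk t (vx n i) (vx n k) ≤
      ENNReal.ofReal (ind i k + T n * rr n)) → ∀ i,
      2 * ∑' y, PK (vx n i) y * (gk (vx n i) y * fm μ PK gk t y (vx n k)) ≤
      ENNReal.ofReal (T n * rr n) := by
    intro t ih i
    have h0 : ∑ j, fm μ PK gk t (vx (n + 1) j) (vx n k) = 0 :=
      Finset.sum_eq_zero fun j _ => fm_above μ t n (n + 1) (by omega) j k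
    rw [tsum_kill, h0, mul_zero, add_zero]
    have h1 : ∑ j ∈ Finset.univ.erase i, fm μ PK gk t (vx n j) (vx n k) ≤
        ENNReal.ofReal (1 + T n) := by
      refine (Finset.sum_le_sum fun j _ => ih j).trans ?_
      rw [← ENNReal.ofReal_sum_of_nonneg fun j _ => add_nonneg (ind_nonneg _ _) (by positivity)]
      apply ENNReal.ofReal_le_ofReal
      rw [Finset.sum_add_distrib, Finset.sum_const, Finset.card_erase_of_mem (Finset.mem_univ _),
        Finset.card_univ, Fintype.card_fin, nsmul_eq_mul,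
        Nat.cast_sub (by have := W_ge n; omega), Nat.cast_one]
      have h2 := sum_ind k (Finset.univ.erase i)
      have h3 : ((W n : ℝ) - 1) * (T n * rr n) = T n := by
        calc ((W n : ℝ) - 1) * (T n * rr n) = (((W n : ℝ) - 1) * rr n) * T n := by ring
          _ = T n := by rw [W_rr, one_mul]
      linarith
    calc 2 * (ENNReal.ofReal (bb n) * ∑ j ∈ Finset.univ.erase i, fm μ PK gk t (vx n j) (vx n k))
        ≤ 2 * (ENNReal.ofReal (bb n) * ENNReal.ofReal (1 + T n)) := by gcongr
      _ = ENNReal.ofReal (2 * (bb n * (1 + T n))) := by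
        rw [e2, ← ENNReal.ofReal_mul hb.le, ← ENNReal.ofReal_mul (by norm_num)]
      _ ≤ _ := by
        apply ENNReal.ofReal_le_ofReal
        rw [bb_eq]
        have := key_T n
        calc 2 * (bv n * rr n * (1 + ↑(T n))) = (2 * bv n * (1 + T n)) * rr n := by ring
          _ ≤ T n * rr n := mul_le_mul_of_nonneg_right this hr.le
  have first : ∀ t i, fm μ PK gk t (vx n i) (vx n k) ≤ ENNReal.ofReal (ind i k + T n * rr n) := by
    intro t
    induction t with
    | zero => intro i; simp [fm, cnt]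
    | succ t ih =>
      intro i
      rw [fm_succ, ENNReal.ofReal_add (ind_nonneg _ _) (by positivity)]
      refine add_le_add ?_ (main t ih i)
      unfold ind
      by_cases h : i = k
      · rw [if_pos h, if_pos (by rw [h]), ENNReal.ofReal_one]
      · rw [if_neg h, if_neg (by rwa [vx_inj])]
        exact bot_le
  exact ⟨first t i, main t (first t) i⟩

/-- The bound for the second moment in the level `n`. -/
noncomputable def Ph {n : ℕ} (i k k' : Fin (W n)) : ℝ :=
  ind i k * ind i k' + T n * rr n * (ind i k + ind i k' + ind k k') + 3 * (T n) ^ 3 * rr n ^ 2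

lemma Ph_nonneg {n : ℕ} (i k k' : Fin (W n)) : 0 ≤ Ph i k k' := by
  unfold Ph
  have hT := Tr n
  have hr := rr_pos n
  have h1 := ind_nonneg i k
  have h2 := ind_nonneg i k'
  have h3 := ind_nonneg k k'
  positivity

lemma sum_ind_mul {n : ℕ} (k k' : Fin (W n)) (s : Finset (Fin (W n))) :
    ∑ j ∈ s, ind j k * ind j k' ≤ ind k k' := by
  calc ∑ j ∈ s, ind j k * ind j k' ≤ ∑ j, ind j k * ind j k' :=
      Finset.sum_le_sum_of_subset_of_nonneg (Finset.subset_univ _)
        (fun _ _ _ => mul_nonneg (ind_nonneg _ _) (ind_nonneg _ _))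
    _ = ind k k' := by
      rw [Finset.sum_eq_single k]
      · simp [ind]
      · intro b _ hb
        simp [ind, hb]
      · simp

/-- Sums of `Ph`: over a set `s` of `N` indices. -/
lemma sum_Ph {n : ℕ} (k k' : Fin (W n)) (s : Finset (Fin (W n))) :
    ∑ j ∈ s, Ph j k k' ≤ ind k k' + T n * rr n * (2 + s.card * ind k k') +
      s.card * (3 * (T n) ^ 3 * rr n ^ 2) := by
  unfold Ph
  rw [Finset.sum_add_distrib, Finset.sum_add_distrib, ← Finset.mul_sum, Finset.sum_add_distrib,
    Finset.sum_add_distrib, Finset.sum_const, Finset.sum_const, nsmul_eq_mul, nsmul_eq_mul]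
  have h1 := sum_ind_mul k k' s
  have h2 := sum_ind k s
  have h3 := sum_ind k' s
  have hT := Tr n
  have hr := rr_pos n
  have h4 : T n * rr n * (∑ i ∈ s, ind i k + ∑ i ∈ s, ind i k' + s.card * ind k k') ≤
      T n * rr n * (2 + s.card * ind k k') :=
    mul_le_mul_of_nonneg_left (by linarith) (by positivity)
  linarith

open Classical in
lemma sm_point (n : ℕ) (k k' : Fin (W n)) (t : ℕ) (i : Fin (W n)) :
    sm μ PK gk t (vx n i) (vx n k) (vx n k') ≤ ENNReal.ofReal (Ph i k k') := by
  have hT := Tr n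
  have hr := rr_pos n
  have hb := bb_pos n
  have hbv := bv_ge n
  have e2 : (2 : ℝ≥0∞) = ENNReal.ofReal 2 := by simp
  induction t generalizing i with
  | zero => simp [sm, cnt]
  | succ t ih =>
    rw [sm_succ μ PK gk gk_sq]
    have hS := (fm_point μ n k t i).2
    have hS' := (fm_point μ n k' t i).2
    set S := ∑' y, PK (vx n i) y * (gk (vx n i) y * fm μ PK gk t y (vx n k)) with hSd
    set S' := ∑' y, PK (vx n i) y * (gk (vx n i) y * fm μ PK gk t y (vx n k')) with hSd'
    have i1 : ∀ d : Decidable (vx n i = vx n k),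
        (@ite ℝ≥0∞ (vx n i = vx n k) d 1 0) = ENNReal.ofReal (ind i k) := by
      intro d
      unfold ind
      by_cases h : i = k
      · rw [if_pos h, if_pos (by rw [h]), ENNReal.ofReal_one]
      · rw [if_neg h, if_neg (by rwa [vx_inj]), ENNReal.ofReal_zero]
    have i2 : ∀ d : Decidable (vx n i = vx n k'),
        (@ite ℝ≥0∞ (vx n i = vx n k') d 1 0) = ENNReal.ofReal (ind i k') := by
      intro d
      unfold ind
      by_cases h : i = k'
      · rw [if_pos h, if_pos (by rw [h]), ENNReal.ofReal_one]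
      · rw [if_neg h, if_neg (by rwa [vx_inj]), ENNReal.ofReal_zero]
    rw [i1, i2]
    have n1 := ind_nonneg i k
    have n2 := ind_nonneg i k'
    have n3 := ind_nonneg k k'
    -- the four parts
    have p1 : ENNReal.ofReal (ind i k) * ENNReal.ofReal (ind i k') =
        ENNReal.ofReal (ind i k * ind i k') := (ENNReal.ofReal_mul n1).symm
    have p2 : ENNReal.ofReal (ind i k) * (2 * S') ≤ ENNReal.ofReal (ind i k * (T n * rr n)) := by
      rw [ENNReal.ofReal_mul n1]
      exact mul_le_mul_right hS' _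
    have p3 : ENNReal.ofReal (ind i k') * (2 * S) ≤ ENNReal.ofReal (ind i k' * (T n * rr n)) := by
      rw [ENNReal.ofReal_mul n2]
      exact mul_le_mul_right hS _
    have p4 : 2 * (∑' y, PK (vx n i) y * (gk (vx n i) y * sm μ PK gk t y (vx n k) (vx n k'))) ≤
        ENNReal.ofReal (2 * bb n * (ind k k' + T n * rr n * (2 + ((W n : ℝ) - 1) * ind k k') +
          ((W n : ℝ) - 1) * (3 * (T n) ^ 3 * rr n ^ 2))) := by
      have h0 : ∑ j, sm μ PK gk t (vx (n + 1) j) (vx n k) (vx n k') = 0 :=
        Finset.sum_eq_zero fun j _ => sm_above μ t n (n + 1) (by omega) j k k'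
      rw [tsum_kill, h0, mul_zero, add_zero]
      have h1 : ∑ j ∈ Finset.univ.erase i, sm μ PK gk t (vx n j) (vx n k) (vx n k') ≤
          ENNReal.ofReal (ind k k' + T n * rr n * (2 + ((W n : ℝ) - 1) * ind k k') +
          ((W n : ℝ) - 1) * (3 * (T n) ^ 3 * rr n ^ 2)) := by
        refine (Finset.sum_le_sum fun j _ => ih j).trans ?_
        rw [← ENNReal.ofReal_sum_of_nonneg fun j _ => Ph_nonneg _ _ _]
        apply ENNReal.ofReal_le_ofReal
        have h2 := sum_Ph k k' (Finset.univ.erase i)
        rw [Finset.card_erase_of_mem (Finset.mem_univ _),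
          Finset.card_univ, Fintype.card_fin,
          Nat.cast_sub (by have := W_ge n; omega), Nat.cast_one] at h2
        exact h2
      have h3 : (0 : ℝ) ≤ 2 * bb n := by positivity
      rw [ENNReal.ofReal_mul h3, ENNReal.ofReal_mul (by norm_num : (0 : ℝ) ≤ 2), ← e2, mul_assoc]
      gcongr
    have p5 : 2 * (S * S') ≤ ENNReal.ofReal ((T n * rr n) * (T n * rr n) / 2) := by
      have h1 : (2 * S) * (2 * S') ≤ ENNReal.ofReal ((T n * rr n) * (T n * rr n)) := by
        rw [ENNReal.ofReal_mul (by positivity)]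
        exact mul_le_mul' hS hS'
      have h2 : 2 * (2 * (S * S')) ≤ 2 * ENNReal.ofReal ((T n * rr n) * (T n * rr n) / 2) := by
        rw [e2, ← ENNReal.ofReal_mul (by norm_num), ← e2]
        refine le_trans (le_of_eq (by ring)) (h1.trans (ENNReal.ofReal_le_ofReal (by linarith)))
      exact (ENNReal.mul_le_mul_iff_right (by norm_num) (by norm_num)).1 h2
    rw [p1]
    refine (add_le_add (add_le_add (add_le_add (add_le_add le_rfl p2) p3) p4) p5).trans ?_
    have hW := Wr n
    have q4 : 0 ≤ 2 * bb n * (ind k k' + T n * rr n * (2 + ((W n : ℝ) - 1) * ind k k') +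
          ((W n : ℝ) - 1) * (3 * (T n) ^ 3 * rr n ^ 2)) := by
      have : 0 ≤ (W n : ℝ) - 1 := by linarith
      positivity
    rw [← ENNReal.ofReal_add (by positivity) (by positivity),
      ← ENNReal.ofReal_add (by positivity) (by positivity),
      ← ENNReal.ofReal_add (by positivity) q4,
      ← ENNReal.ofReal_add (by positivity) (by positivity)]
    apply ENNReal.ofReal_le_ofReal
    -- real inequality
    have hWr := W_rr n
    have e3 : 2 * bb n * (ind k k' + T n * rr n * (2 + ((W n : ℝ) - 1) * ind k k') +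
          ((W n : ℝ) - 1) * (3 * (T n) ^ 3 * rr n ^ 2)) =
        2 * bv n * ((1 + T n) * rr n * ind k k' + (2 * T n + 3 * (T n) ^ 3) * rr n ^ 2) := by
      rw [bb_eq]
      have : 2 * (bv n * rr n) * (ind k k' + T n * rr n * (2 + ((W n : ℝ) - 1) * ind k k') +
          ((W n : ℝ) - 1) * (3 * (T n) ^ 3 * rr n ^ 2)) =
          2 * bv n * (rr n * ind k k' + T n * rr n * (2 * rr n + (((W n : ℝ) - 1) * rr n) *
            ind k k') + (((W n : ℝ) - 1) * rr n) * (3 * (T n) ^ 3 * rr n ^ 2)) := by ring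
      rw [this, hWr]
      ring
    rw [e3]
    have k1 := key_T n
    have k2 : 2 * bv n * (2 * T n + 3 * (T n) ^ 3) ≤ 3 * (T n) ^ 3 - (T n) ^ 2 / 2 := by
      have h1 := two_bv n
      have h2 : 2 * bv n * (2 * T n + 3 * (T n : ℝ) ^ 3) ≤
          (1 - 1 / T n) * (2 * T n + 3 * (T n) ^ 3) :=
        mul_le_mul_of_nonneg_right h1 (by positivity)
      have h3 : (1 - 1 / (T n : ℝ)) * (2 * T n + 3 * (T n) ^ 3) =
          2 * T n + 3 * (T n) ^ 3 - 2 - 3 * (T n) ^ 2 := by
        field_simp
        ring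
      nlinarith
    have k3 : 2 * bv n * ((1 + T n) * rr n * ind k k' + (2 * T n + 3 * (T n) ^ 3) * rr n ^ 2) ≤
        T n * rr n * ind k k' + (3 * (T n) ^ 3 - (T n) ^ 2 / 2) * rr n ^ 2 := by
      have a1 : (2 * bv n * (1 + T n)) * (rr n * ind k k') ≤ T n * (rr n * ind k k') :=
        mul_le_mul_of_nonneg_right k1 (by positivity)
      have a2 : (2 * bv n * (2 * T n + 3 * (T n) ^ 3)) * rr n ^ 2 ≤
          (3 * (T n) ^ 3 - (T n) ^ 2 / 2) * rr n ^ 2 :=
        mul_le_mul_of_nonneg_right k2 (by positivity)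
      nlinarith
    unfold Ph
    nlinarith

end Pool.Agent.V11331.BR
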