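import Pool.Agent.V11331.BR.Mom

set_option autoImplicit false
set_option linter.unusedSectionVars false

open MeasureTheory ProbabilityTheory Filter Topology
open scoped ENNReal

namespace Pool.Agent.V11331.BR

lemma om (i : ℕ) : 1 - 2 * bv i = 1 / T i + 2 * dd i := by
  rw [bv_eq]
  have := Tr i
  field_simp
  ring

lemma om_pos (i : ℕ) : 0 < 1 - 2 * bv i := by
  rw [om]
  have := Tr i
  have := dd_nonneg i
  positivity

noncomputable def ff (i : ℕ) : ℝ := 2 * uu i / (1 - 2 * bv i)

noncomputable def Tp (n : ℕ) : ℝ := 1 / (1 - 2 * bv n)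

noncomputable def pf (n j : ℕ) : ℝ := ∏ i ∈ Finset.Ico j n, ff i

noncomputable def al (n j : ℕ) : ℝ := pf n j * Tp n

lemma ff_pos (i : ℕ) : 0 < ff i := by
  have h1 := om_pos i
  have h2 := uu_ge i
  unfold ff
  apply div_pos <;> linarith

lemma pf_pos (n j : ℕ) : 0 < pf n j := Finset.prod_pos fun i _ => ff_pos i

lemma Tp_pos (n : ℕ) : 0 < Tp n := by
  have h1 := om_pos n
  unfold Tp
  positivity

lemma al_pos (n j : ℕ) : 0 < al n j := mul_pos (pf_pos n j) (Tp_pos n)

lemma pf_self (n : ℕ) : pf n n = 1 := by simp [pf]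

lemma pf_succ (n j : ℕ) (h : j < n) : pf n j = ff j * pf n (j + 1) := by
  unfold pf
  rw [Finset.prod_eq_prod_Ico_succ_bot h]

lemma al_self (n : ℕ) : al n n = Tp n := by rw [al, pf_self, one_mul]

lemma al_succ (n j : ℕ) (h : j < n) : al n j = ff j * al n (j + 1) := by
  rw [al, al, pf_succ n j h, mul_assoc]

lemma Tp_rec (n : ℕ) : 1 + 2 * bv n * Tp n = Tp n := by
  have h1 := om_pos n
  unfold Tp
  field_simp
  ring

lemma ff_rec (j : ℕ) (a : ℝ) : 2 * bv j * (ff j * a) + 2 * uu j * a = ff j * a := by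
  have h1 := om_pos j
  have h : (1 - 2 * bv j) * ff j = 2 * uu j := by
    unfold ff
    field_simp
  linear_combination (-a) * h

lemma AA_le (n t : ℕ) : ∀ j, j ≤ n → AA n t j ≤ al n j / W n := by
  induction t with
  | zero =>
    intro j _
    have := al_pos n j
    have := Wr n
    show (0 : ℝ) ≤ _
    positivity
  | succ t ih =>
    intro j hj
    have hW := Wr n
    have h1 := bv_ge j
    have h2 := uu_ge j
    have h3 := ih j hj
    rcases Nat.lt_or_ge j n with h | h
    · rw [AA, if_neg (by omega), if_pos h]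
      have h4 := ih (j + 1) h
      calc 0 + 2 * bv j * AA n t j + 2 * uu j * AA n t (j + 1)
          ≤ 0 + 2 * bv j * (al n j / W n) + 2 * uu j * (al n (j + 1) / W n) := by
            gcongr
        _ = (2 * bv j * (ff j * al n (j + 1)) + 2 * uu j * al n (j + 1)) / W n := by
            rw [al_succ n j h]
            ring
        _ = al n j / W n := by rw [ff_rec, al_succ n j h]
    · have : j = n := by omega
      subst this
      rw [AA, if_pos rfl, if_neg (lt_irrefl j)]
      calc 1 / (W j : ℝ) + 2 * bv j * AA j t j + 0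
          ≤ 1 / (W j : ℝ) + 2 * bv j * (al j j / W j) + 0 := by gcongr
        _ = (1 + 2 * bv j * Tp j) / W j := by
            rw [al_self]
            ring
        _ = al j j / W j := by rw [Tp_rec, al_self]

lemma AA_mono (n t j : ℕ) : AA n t j ≤ AA n (t + 1) j := by
  induction t generalizing j with
  | zero => exact AA_nonneg n 1 j
  | succ t ih =>
    have h1 := bv_ge j
    have h2 := uu_ge j
    have h3 := ih j
    have h4 := ih (j + 1)
    rw [AA, AA]
    split_ifs <;> gcongr

lemma AA_lim (n d : ℕ) : ∀ j, j + d = n →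
    Tendsto (fun t => AA n t j) atTop (𝓝 (al n j / W n)) := by
  have hex : ∀ j, j ≤ n → ∃ l, Tendsto (fun t => AA n t j) atTop (𝓝 l) := by
    intro j hj
    have hm : Monotone (fun t => AA n t j) := monotone_nat_of_le_succ (fun t => AA_mono n t j)
    exact ⟨_, tendsto_atTop_ciSup hm ⟨al n j / W n, by
      rintro _ ⟨t, rfl⟩
      exact AA_le n t j hj⟩⟩
  induction d with
  | zero =>
    intro j hj
    obtain ⟨l, hl⟩ := hex j (by omega)
    have hjn : j = n := by omega
    have h1 : Tendsto (fun t => AA n (t + 1) j) atTop (𝓝 l) := (tendsto_add_atTop_iff_nat 1).2 hl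
    have h2 : Tendsto (fun t => AA n (t + 1) j) atTop (𝓝 (1 / (W n : ℝ) + 2 * bv j * l + 0)) := by
      have e : ∀ t, AA n (t + 1) j = 1 / (W n : ℝ) + 2 * bv j * AA n t j + 0 := by
        intro t
        rw [AA, if_pos hjn, if_neg (by omega)]
      simp only [e]
      exact (tendsto_const_nhds.add (hl.const_mul _)).add tendsto_const_nhds
    have h3 := tendsto_nhds_unique h1 h2
    have hl2 : l = al n j / W n := by
      subst hjn
      have h4 := om_pos j
      have hW := Wr j
      rw [al_self, Tp]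
      have h5 : (1 - 2 * bv j) * l = 1 / W j := by linarith
      have : l = 1 / W j / (1 - 2 * bv j) := by
        rw [eq_div_iff h4.ne']
        linarith
      rw [this]
      field_simp
    rw [← hl2]
    exact hl
  | succ d ih =>
    intro j hj
    obtain ⟨l, hl⟩ := hex j (by omega)
    have hlt : j < n := by omega
    have ih' := ih (j + 1) (by omega)
    have h1 : Tendsto (fun t => AA n (t + 1) j) atTop (𝓝 l) := (tendsto_add_atTop_iff_nat 1).2 hl
    have h2 : Tendsto (fun t => AA n (t + 1) j) atTop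
        (𝓝 (0 + 2 * bv j * l + 2 * uu j * (al n (j + 1) / W n))) := by
      have e : ∀ t, AA n (t + 1) j = 0 + 2 * bv j * AA n t j + 2 * uu j * AA n t (j + 1) := by
        intro t
        rw [AA, if_neg (by omega), if_pos hlt]
      simp only [e]
      exact (tendsto_const_nhds.add (hl.const_mul _)).add (ih'.const_mul _)
    have h3 := tendsto_nhds_unique h1 h2
    have hl2 : l = al n j / W n := by
      have h4 := om_pos j
      have hW := Wr n
      have h5 := ff_rec j (al n (j + 1) / W n)
      have h6 : (1 - 2 * bv j) * l = (1 - 2 * bv j) * (ff j * (al n (j + 1) / W n)) := by linarith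
      have h7 := mul_left_cancel₀ h4.ne' h6
      rw [h7, al_succ n j hlt]
      ring
    rw [← hl2]
    exact hl

/-! ### The block -/

section block

variable (m n : ℕ) (hT : ∀ j, m ≤ j → j < n → T j = 100)

include hT

lemma om_block (j : ℕ) (h1 : m ≤ j) (h2 : j < n) :
    (1 / 100 : ℝ) ≤ 1 - 2 * bv j ∧ 1 - 2 * bv j ≤ 1.0021 / 100 := by
  rw [om, hT j h1 h2]
  have h3 := dd_nonneg j
  have h4 := dd_le j
  rw [hT j h1 h2] at h4
  push_cast at h4 ⊢
  constructor <;> linarith

lemma ff_ge (j : ℕ) (h1 : m ≤ j) (h2 : j < n) : 100 ≤ ff j := by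
  obtain ⟨h3, h4⟩ := om_block m n hT j h1 h2
  have h5 : uu j = 1.01 / 2 := by
    unfold uu
    rw [hT j h1 h2]
    norm_num
  unfold ff
  rw [le_div_iff₀ (by linarith), h5]
  linarith

end block

lemma Tp_ge (n : ℕ) : 0.997 * T n ≤ Tp n := by
  have h1 := Tr n
  have h2 := dd_le n
  have h3 := om_pos n
  have h4 : (1 - 2 * bv n) * T n ≤ 1.00202 := by
    rw [om]
    have : (1 / (T n : ℝ) + 2 * dd n) * T n = 1 + 2 * (dd n * T n) := by
      field_simp
    rw [this]
    linarith
  unfold Tp
  rw [le_div_iff₀ h3]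
  nlinarith

/-- Second moment constants. -/
noncomputable def be (n j : ℕ) : ℝ := (60 + 4 * T n / 100 ^ (n - j)) * al n j ^ 2

noncomputable def ga (n j : ℕ) : ℝ := pf n j * (1 + T n)

noncomputable def PL (n j : ℕ) (k k' : Fin (W n)) : ℝ :=
  be n j * rr n ^ 2 + ga n j * rr n * ind k k'

lemma be_pos (n j : ℕ) : 0 < be n j := by
  unfold be
  have h1 := al_pos n j
  have h2 := Tr n
  positivity

lemma ga_pos (n j : ℕ) : 0 < ga n j := by
  unfold ga
  have h1 := pf_pos n j
  have h2 := Tr n
  positivity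

lemma PL_nonneg (n j : ℕ) (k k' : Fin (W n)) : 0 ≤ PL n j k k' := by
  unfold PL
  have h1 := be_pos n j
  have h2 := ga_pos n j
  have h3 := rr_pos n
  have h4 := ind_nonneg k k'
  positivity

lemma one_le_Wrr (n : ℕ) : 1 ≤ (W n : ℝ) * rr n := by
  have h1 := W_rr n
  have h2 := rr_pos n
  linarith

lemma inv_le_rr (n : ℕ) : 1 / (W n : ℝ) ≤ rr n := by
  have h1 := one_le_Wrr n
  have hW := Wr n
  rw [div_le_iff₀ (by linarith)]
  linarith

lemma be_top (n : ℕ) : 3 * (T n : ℝ) ^ 3 + 2 * T n ≤ be n n := by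
  unfold be
  rw [Nat.sub_self, pow_zero, div_one, al_self]
  have h1 := Tr n
  have h2 := Tp_ge n
  have h3 : (0.997 * (T n : ℝ)) ^ 2 ≤ Tp n ^ 2 := by
    apply pow_le_pow_left₀ (by positivity) h2
  have h4 : (60 + 4 * (T n : ℝ)) * (0.997 * T n) ^ 2 ≤ (60 + 4 * T n) * Tp n ^ 2 :=
    mul_le_mul_of_nonneg_left h3 (by positivity)
  refine le_trans ?_ h4
  nlinarith [mul_pos (mul_pos (by linarith : (0:ℝ) < T n) (by linarith : (0:ℝ) < T n))
    (by linarith : (0:ℝ) < T n), mul_pos (by linarith : (0:ℝ) < T n) (by linarith : (0:ℝ) < T n)]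

lemma sum_top (n : ℕ) (k k' : Fin (W n)) :
    ∑ i : Fin (W n), Ph i k k' ≤ W n * PL n n k k' := by
  have h := sum_Ph k k' Finset.univ
  rw [Finset.card_univ, Fintype.card_fin] at h
  refine h.trans ?_
  have h1 := one_le_Wrr n
  have h2 := ind_nonneg k k'
  have h3 := rr_pos n
  have h4 := Tr n
  have h5 := be_top n
  have hW := Wr n
  have e1 : ga n n = 1 + T n := by rw [ga, pf_self, one_mul]
  unfold PL
  rw [e1]
  have a1 : ind k k' ≤ W n * (rr n * ind k k') := by nlinarith
  have a2 : T n * rr n * 2 ≤ W n * (2 * T n * rr n ^ 2) := by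
    have : T n * rr n * 2 * 1 ≤ T n * rr n * 2 * (W n * rr n) :=
      mul_le_mul_of_nonneg_left h1 (by positivity)
    nlinarith
  have a3 : W n * ((3 * (T n : ℝ) ^ 3 + 2 * T n) * rr n ^ 2) ≤ W n * (be n n * rr n ^ 2) := by
    gcongr
  nlinarith

lemma be_rec (m n : ℕ) (hT : ∀ j, m ≤ j → j < n → T j = 100) (j : ℕ) (h1 : m ≤ j) (h2 : j < n) :
    2 * bv j * be n j + 2 * uu j * be n (j + 1) + al n j ^ 2 / 2 ≤ be n j := by
  obtain ⟨h3, -⟩ := om_block m n hT j h1 h2
  have h4 := ff_ge m n hT j h1 h2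
  have h5 := al_succ n j h2
  have h6 := al_pos n (j + 1)
  have h7 := Tr n
  obtain ⟨d, rfl⟩ := Nat.exists_eq_add_of_lt h2
  set N := j + d + 1 with hN
  have e1 : N - j = d + 1 := by omega
  have e2 : N - (j + 1) = d := by omega
  unfold be
  rw [e1, e2, h5]
  set F := ff j with hF
  set a := al N (j + 1) with ha
  set D := 1 - 2 * bv j with hD
  have e3 : 2 * uu j = D * F := by
    rw [hF, ff, hD]
    have := om_pos j
    field_simp
  have e4 : 2 * bv j = 1 - D := by rw [hD]; ring
  rw [e3, e4]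
  set X : ℝ := 4 * T N / 100 ^ d with hX
  have e5 : 4 * (T N : ℝ) / 100 ^ (d + 1) = X / 100 := by
    rw [hX, pow_succ]
    field_simp
  rw [e5]
  have hX0 : 0 < X := by positivity
  -- D F (60 + X) a^2 + F^2 a^2 / 2 <= D (60 + X/100) F^2 a^2
  have k1 : D * F * (60 + X) ≤ D * (60 + X) / 100 * F ^ 2 := by
    have : D * F * (60 + X) * 100 ≤ D * F * (60 + X) * F :=
      mul_le_mul_of_nonneg_left h4 (by positivity)
    nlinarith
  have k2 : D * F * (60 + X) + F ^ 2 / 2 ≤ D * (60 + X / 100) * F ^ 2 := by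
    have hF2 : 0 < F ^ 2 := by positivity
    have : D * (60 + X) / 100 * F ^ 2 + F ^ 2 / 2 ≤ D * (60 + X / 100) * F ^ 2 := by
      have : (D * (60 + X) / 100 + 1 / 2) * F ^ 2 ≤ (D * (60 + X / 100)) * F ^ 2 := by
        apply mul_le_mul_of_nonneg_right _ hF2.le
        nlinarith
      linarith
    linarith
  have k3 : (D * F * (60 + X) + F ^ 2 / 2) * a ^ 2 ≤ (D * (60 + X / 100) * F ^ 2) * a ^ 2 :=
    mul_le_mul_of_nonneg_right k2 (by positivity)
  nlinarith

lemma ga_rec (n j : ℕ) (h2 : j < n) :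
    2 * bv j * ga n j + 2 * uu j * ga n (j + 1) = ga n j := by
  unfold ga
  rw [pf_succ n j h2]
  have := ff_rec j (pf n (j + 1) * (1 + T n))
  linarith

lemma PL_rec (m n : ℕ) (hT : ∀ j, m ≤ j → j < n → T j = 100) (j : ℕ) (h1 : m ≤ j) (h2 : j < n)
    (k k' : Fin (W n)) :
    2 * (bv j * PL n j k k' + uu j * PL n (j + 1) k k') + (al n j / W n) * (al n j / W n) / 2 ≤
      PL n j k k' := by
  have h3 := be_rec m n hT j h1 h2
  have h4 := ga_rec n j h2
  have h5 := inv_le_rr n
  have h6 := rr_pos n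
  have hW := Wr n
  have h7 := al_pos n j
  have h8 : (al n j / W n) * (al n j / W n) ≤ al n j ^ 2 * rr n ^ 2 := by
    have e : al n j / W n ≤ al n j * rr n := by
      calc al n j / W n = al n j * (1 / W n) := by ring
        _ ≤ _ := by gcongr
    calc (al n j / W n) * (al n j / W n) ≤ (al n j * rr n) * (al n j * rr n) := by gcongr
      _ = _ := by ring
  have h9 : (2 * bv j * be n j + 2 * uu j * be n (j + 1) + al n j ^ 2 / 2) * rr n ^ 2 ≤
      be n j * rr n ^ 2 := mul_le_mul_of_nonneg_right h3 (by positivity)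
  have h10 : (2 * bv j * ga n j + 2 * uu j * ga n (j + 1)) * (rr n * ind k k') =
      ga n j * (rr n * ind k k') := by rw [h4]
  unfold PL
  nlinarith

variable (μ : PMF ℕ)

lemma sm_low (m n : ℕ) (hT : ∀ j, m ≤ j → j < n → T j = 100) (k k' : Fin (W n)) (t : ℕ) :
    ∀ j, m ≤ j → j < n → ∀ i, sm μ PK gk t (vx j i) (vx n k) (vx n k') ≤
      ENNReal.ofReal (PL n j k k') := by
  induction t with
  | zero => intro j _ _ i; simp [sm, cnt]
  | succ t ih =>
    intro j h1 h2 i
    have e2 : (2 : ℝ≥0∞) = ENNReal.ofReal 2 := by simp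
    have hne : ∀ k : Fin (W n), ¬ (vx j i = vx n k) := by
      intro k he
      have := congrArg lv he
      simp at this
      omega
    have hS : ∀ k : Fin (W n), 2 * ∑' y, PK (vx j i) y * (gk (vx j i) y *
        fm μ PK gk t y (vx n k)) ≤ ENNReal.ofReal (al n j / W n) := by
      intro k
      have h3 := (fm_level μ n k (t + 1)).1 j h2 i
      rw [fm_succ, if_neg (hne k), zero_add] at h3
      rw [h3]
      exact ENNReal.ofReal_le_ofReal (AA_le n (t + 1) j h2.le)
    have hup : ∑ i', sm μ PK gk t (vx (j + 1) i') (vx n k) (vx n k') ≤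
        ENNReal.ofReal (W (j + 1) * PL n (j + 1) k k') := by
      rcases Nat.lt_or_ge (j + 1) n with h | h
      · refine (Finset.sum_le_sum fun i' _ => ih (j + 1) (by omega) h i').trans ?_
        rw [Finset.sum_const, Finset.card_univ, Fintype.card_fin, nsmul_eq_mul,
          ← ENNReal.ofReal_natCast, ← ENNReal.ofReal_mul (by positivity)]
      · have hjn : j + 1 = n := by omega
        subst hjn
        refine (Finset.sum_le_sum fun i' _ => sm_point μ (j + 1) k k' t i').trans ?_
        rw [← ENNReal.ofReal_sum_of_nonneg fun i _ => Ph_nonneg _ _ _]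
        exact ENNReal.ofReal_le_ofReal (sum_top (j + 1) k k')
    rw [sm_succ μ PK gk gk_sq, if_neg (hne k), if_neg (hne k'), zero_mul, zero_mul, zero_mul,
      zero_add, zero_add, zero_add, tsum_kill]
    have p4 : 2 * (ENNReal.ofReal (bb j) * ∑ j_1 ∈ Finset.univ.erase i,
        sm μ PK gk t (vx j j_1) (vx n k) (vx n k') +
        ENNReal.ofReal (cc j) * ∑ j_1, sm μ PK gk t (vx (j + 1) j_1) (vx n k) (vx n k')) ≤
        ENNReal.ofReal (2 * (bv j * PL n j k k' + uu j * PL n (j + 1) k k')) := by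
      have a1 : ENNReal.ofReal (bb j) * ∑ j_1 ∈ Finset.univ.erase i,
          sm μ PK gk t (vx j j_1) (vx n k) (vx n k') ≤ ENNReal.ofReal (bv j * PL n j k k') := by
        rw [← sum_erase_const j i]
        gcongr with i' _
        exact ih j h1 h2 i'
      have a2 : ENNReal.ofReal (cc j) * ∑ j_1, sm μ PK gk t (vx (j + 1) j_1) (vx n k) (vx n k') ≤
          ENNReal.ofReal (uu j * PL n (j + 1) k k') := by
        rw [← sum_up_const j]
        gcongr
      have b1 := bv_ge j
      have b2 := uu_ge j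
      have b3 := PL_nonneg n j k k'
      have b4 := PL_nonneg n (j + 1) k k'
      rw [ENNReal.ofReal_mul (by norm_num), ENNReal.ofReal_add (by positivity) (by positivity),
        ← e2]
      gcongr
    have p5 : 2 * ((∑' y, PK (vx j i) y * (gk (vx j i) y * fm μ PK gk t y (vx n k))) *
        ∑' y, PK (vx j i) y * (gk (vx j i) y * fm μ PK gk t y (vx n k'))) ≤
        ENNReal.ofReal ((al n j / W n) * (al n j / W n) / 2) := by
      have c1 := hS k
      have c2 := hS k'
      set S := ∑' y, PK (vx j i) y * (gk (vx j i) y * fm μ PK gk t y (vx n k))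
      set S' := ∑' y, PK (vx j i) y * (gk (vx j i) y * fm μ PK gk t y (vx n k'))
      have hal := al_pos n j
      have hW := Wr n
      have h3 : (2 * S) * (2 * S') ≤ ENNReal.ofReal ((al n j / W n) * (al n j / W n)) := by
        rw [ENNReal.ofReal_mul (by positivity)]
        exact mul_le_mul' c1 c2
      have h4 : 2 * (2 * (S * S')) ≤
          2 * ENNReal.ofReal ((al n j / W n) * (al n j / W n) / 2) := by
        rw [e2, ← ENNReal.ofReal_mul (by norm_num), ← e2]
        refine le_trans (le_of_eq (by ring)) (h3.trans (ENNReal.ofReal_le_ofReal (by linarith)))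
      exact (ENNReal.mul_le_mul_iff_right (by norm_num) (by norm_num)).1 h4
    refine (add_le_add p4 p5).trans ?_
    have b1 := bv_ge j
    have b2 := uu_ge j
    have b3 := PL_nonneg n j k k'
    have b4 := PL_nonneg n (j + 1) k k'
    have hal := al_pos n j
    have hW := Wr n
    rw [← ENNReal.ofReal_add (by positivity) (by positivity)]
    exact ENNReal.ofReal_le_ofReal (PL_rec m n hT j h1 h2 k k')

end Pool.Agent.V11331.BR
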