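import Pool.Agent.V11331.BR.Kernel

set_option autoImplicit false
set_option linter.unusedSectionVars false

open MeasureTheory ProbabilityTheory Filter Topology
open scoped ENNReal

namespace Pool.Agent.V11331.BR

/-- The law of the walk at time `n`. -/
noncomputable def walk {V : Type} (P : V → PMF V) (x : V) : ℕ → PMF V
  | 0 => PMF.pure x
  | n + 1 => (walk P x n).bind P

section gen

variable {V : Type} (P : V → PMF V)

lemma walk_succ' (x : V) (n : ℕ) : walk P x (n + 1) = (P x).bind (fun z => walk P z n) := by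
  induction n with
  | zero =>
    show (PMF.pure x).bind P = (P x).bind (fun z => PMF.pure z)
    rw [PMF.pure_bind, PMF.bind_pure]
  | succ n ih =>
    show (walk P x (n + 1)).bind P = _
    rw [ih, PMF.bind_bind]
    rfl

lemma walk_add (x : V) (m n : ℕ) : walk P x (m + n) = (walk P x m).bind (fun z => walk P z n) := by
  induction n with
  | zero =>
    show walk P x m = (walk P x m).bind (fun z => PMF.pure z)
    rw [PMF.bind_pure]
  | succ n ih =>
    show (walk P x (m + n)).bind P = _
    rw [ih, PMF.bind_bind]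
    rfl

lemma walk_add_ge (x z y : V) (m n : ℕ) : walk P x m z * walk P z n y ≤ walk P x (m + n) y := by
  rw [walk_add, PMF.bind_apply]
  exact ENNReal.le_tsum z

lemma walk_symm (hP : ∀ x y, P x y = P y x) (n : ℕ) (x y : V) :
    walk P x n y = walk P y n x := by
  induction n generalizing x y with
  | zero =>
    show PMF.pure x y = PMF.pure y x
    rw [PMF.pure_apply, PMF.pure_apply]
    by_cases h : x = y
    · simp [h]
    · simp [h, Ne.symm h]
  | succ n ih =>
    rw [walk_succ' P y n, PMF.bind_apply]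
    show (walk P x n).bind P y = _
    rw [PMF.bind_apply]
    refine tsum_congr fun z => ?_
    rw [ih x z, hP z y, mul_comm]

end gen

/-- The superharmonic function. -/
noncomputable def hh : ℕ → ℝ
  | 0 => 1
  | n + 1 => hh n / (2 * T n)

lemma hh_pos (n : ℕ) : 0 < hh n := by
  induction n with
  | zero => exact one_pos
  | succ n ih =>
    have := Tr n
    show 0 < hh n / (2 * T n)
    positivity

lemma hh_super (n : ℕ) :
    2 * (bv n * hh n + uu n * hh (n + 1) + dd n * hh (n - 1)) ≤ (1 - 0.09 / T n) * hh n := by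
  have hT := Tr n
  have h0 := hh_pos n
  have hu := uu_le n
  have h2 := two_bv n
  have e1 : uu n * hh (n + 1) = uu n / (2 * T n) * hh n := by
    show uu n * (hh n / (2 * T n)) = _
    ring
  have e2 : dd n * hh (n - 1) ≤ 0.202 / T n * hh n := by
    cases n with
    | zero => simp [dd]; positivity
    | succ n =>
      have hT' := Tr n
      have hu' := uu_le n
      have hh' := hh_pos n
      rw [Nat.add_sub_cancel, dd_succ]
      have e : hh (n + 1) = hh n / (2 * T n) := rfl
      rw [e]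
      have e3 : 0.202 / (T (n + 1) : ℝ) * (hh n / (2 * T n)) =
        0.505 / (5 * T n * T (n + 1)) * hh n := by
        field_simp
        norm_num
      rw [e3]
      gcongr
  rw [e1]
  have e4 : 2 * (bv n * hh n + uu n / (2 * T n) * hh n + dd n * hh (n - 1)) ≤
      (2 * bv n) * hh n + uu n / T n * hh n + 2 * (0.202 / T n * hh n) := by
    have : uu n / (2 * T n) * hh n * 2 = uu n / T n * hh n := by
      field_simp
    linarith
  refine e4.trans ?_
  have e5 : uu n / T n ≤ 0.505 / T n := by gcongr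
  have e6 : 2 * bv n + uu n / T n + 2 * (0.202 / T n) ≤ 1 - 0.09 / T n := by
    have e7 : 1 - 1 / (T n : ℝ) + 0.505 / T n + 2 * (0.202 / T n) = 1 - 0.091 / T n := by ring
    have e8 : (0.09 : ℝ) / T n ≤ 0.091 / T n := by gcongr; norm_num
    linarith
  calc 2 * bv n * hh n + uu n / T n * hh n + 2 * (0.202 / T n * hh n)
      = (2 * bv n + uu n / T n + 2 * (0.202 / T n)) * hh n := by ring
    _ ≤ (1 - 0.09 / T n) * hh n := mul_le_mul_of_nonneg_right e6 h0.le

open Classical in
lemma exists_green (z : VV) : ∃ B : VV → ℝ≥0∞, (∀ x, B x ≠ ∞) ∧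
      ∀ x, (if x = z then 1 else 0) + 2 * ∑' y, PK x y * B y ≤ B x := by
  obtain ⟨m, k, rfl⟩ := exists_vx z
  have hTm := Tr m
  have hm := hh_pos m
  set K : ℝ := T m / (0.09 * hh m) with hK
  have hK0 : 0 < K := by positivity
  refine ⟨fun x => ENNReal.ofReal (K * hh (lv x)), fun x => ENNReal.ofReal_ne_top, fun x => ?_⟩
  obtain ⟨n, i, rfl⟩ := exists_vx x
  have hTn := Tr n
  have hn := hh_pos n
  have h1 := tsum_pE_level n i (fun k => K * hh k) (fun k => (mul_pos hK0 (hh_pos k)).le)
  simp only [PK_apply]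
  rw [h1]
  have h2 := hh_super n
  have e2 : (2 : ℝ≥0∞) = ENNReal.ofReal 2 := by simp
  have e1 : (if vx n i = vx m k then (1 : ℝ≥0∞) else 0) ≤
      ENNReal.ofReal (K * (0.09 / T n * hh n)) := by
    by_cases h : vx n i = vx m k
    · rw [if_pos h]
      have hnm : n = m := by
        have := congrArg lv h
        simpa using this
      subst hnm
      have : K * (0.09 / T n * hh n) = 1 := by
        rw [hK]
        field_simp
      rw [this, ENNReal.ofReal_one]
    · rw [if_neg h]
      exact bot_le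
  rw [e2, ← ENNReal.ofReal_mul (by norm_num)]
  refine (add_le_add_left e1 _).trans ?_
  have hnn : 0 ≤ bv n * (K * hh n) + uu n * (K * hh (n + 1)) + dd n * (K * hh (n - 1)) := by
    have a1 := bv_ge n
    have a2 := uu_ge n
    have a3 := dd_nonneg n
    have a4 := hh_pos (n + 1)
    have a5 := hh_pos (n - 1)
    positivity
  rw [← ENNReal.ofReal_add (by positivity) (by linarith)]
  apply ENNReal.ofReal_le_ofReal
  rw [lv_vx]
  have h3 := mul_le_mul_of_nonneg_left h2 hK0.le
  calc K * (0.09 / ↑(T n) * hh n) +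
        2 * (bv n * (K * hh n) + uu n * (K * hh (n + 1)) + dd n * (K * hh (n - 1)))
      = K * (0.09 / ↑(T n) * hh n) +
        K * (2 * (bv n * hh n + uu n * hh (n + 1) + dd n * hh (n - 1))) := by ring
    _ ≤ K * (0.09 / ↑(T n) * hh n) + K * ((1 - 0.09 / ↑(T n)) * hh n) := by linarith
    _ = K * hh n := by ring

lemma PK_symm (x y : VV) : PK x y = PK y x := pE_symm x y

lemma walk_upper_sum (n : ℕ) (x : VV) :
    ∑' y, walk PK x n y * ENNReal.ofReal (hh (lv y)) ≤
      ENNReal.ofReal ((1 / 2) ^ n * hh (lv x)) := by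
  induction n generalizing x with
  | zero =>
    rw [tsum_eq_single x]
    · show PMF.pure x x * _ ≤ _
      rw [PMF.pure_apply, if_pos rfl, one_mul, pow_zero, one_mul]
    · intro y hy
      show PMF.pure x y * _ = 0
      rw [PMF.pure_apply, if_neg hy, zero_mul]
  | succ n ih =>
    obtain ⟨k, i, rfl⟩ := exists_vx x
    have h1 : ∀ y, walk PK (vx k i) (n + 1) y * ENNReal.ofReal (hh (lv y)) =
        ∑' z, PK (vx k i) z * (walk PK z n y * ENNReal.ofReal (hh (lv y))) := by
      intro y
      rw [walk_succ', PMF.bind_apply, ← ENNReal.tsum_mul_right]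
      exact tsum_congr fun z => by ring
    simp only [h1]
    rw [ENNReal.tsum_comm]
    simp only [ENNReal.tsum_mul_left]
    refine (ENNReal.tsum_le_tsum fun z => mul_le_mul_right (ih z) _).trans ?_
    have h2 := tsum_pE_level k i (fun l => (1 / 2) ^ n * hh l)
      (fun l => (mul_pos (by positivity) (hh_pos l)).le)
    simp only [PK_apply]
    rw [h2]
    apply ENNReal.ofReal_le_ofReal
    rw [lv_vx]
    have h3 := hh_super k
    have hT := Tr k
    have hk := hh_pos k
    have h4 : (1 - 0.09 / (T k : ℝ)) * hh k ≤ hh k := by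
      have : 0 < 0.09 / (T k : ℝ) * hh k := by positivity
      linarith
    have h5 : bv k * hh k + uu k * hh (k + 1) + dd k * hh (k - 1) ≤ 1 / 2 * hh k := by linarith
    calc bv k * ((1 / 2) ^ n * hh k) + uu k * ((1 / 2) ^ n * hh (k + 1)) +
          dd k * ((1 / 2) ^ n * hh (k - 1))
        = (1 / 2) ^ n * (bv k * hh k + uu k * hh (k + 1) + dd k * hh (k - 1)) := by ring
      _ ≤ (1 / 2) ^ n * (1 / 2 * hh k) := mul_le_mul_of_nonneg_left h5 (by positivity)
      _ = (1 / 2) ^ (n + 1) * hh k := by ring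

lemma walk_upper (n : ℕ) (x y : VV) :
    walk PK x n y ≤ ENNReal.ofReal (hh (lv x) / hh (lv y) * (1 / 2) ^ n) := by
  have h1 := (ENNReal.le_tsum y).trans (walk_upper_sum n x)
  have hy := hh_pos (lv y)
  have hx := hh_pos (lv x)
  have e : ENNReal.ofReal ((1 / 2) ^ n * hh (lv x)) =
      ENNReal.ofReal (hh (lv x) / hh (lv y) * (1 / 2) ^ n) * ENNReal.ofReal (hh (lv y)) := by
    rw [← ENNReal.ofReal_mul (by positivity)]
    congr 1
    field_simp
  rw [e] at h1
  exact (ENNReal.mul_le_mul_iff_left (by simpa using hy) ENNReal.ofReal_ne_top).1 h1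

lemma pE_down_pos (j : ℕ) (i : Fin (W (j + 1))) (l : Fin (W j)) :
    0 < PK (vx (j + 1) i) (vx j l) := by
  rw [PK_apply]
  unfold pE
  have := cc_pos j
  simp [this]

lemma fin_pos (n : ℕ) : 0 < W n := by have := W_ge n; omega

lemma walk_down_pos (d j : ℕ) (i : Fin (W (j + d + 1))) (l : Fin (W j)) :
    0 < walk PK (vx (j + d + 1) i) (d + 1) (vx j l) := by
  induction d with
  | zero =>
    rw [walk_succ', PMF.bind_apply]
    refine lt_of_lt_of_le ?_ (ENNReal.le_tsum (vx j l))
    show 0 < PK _ _ * PMF.pure _ _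
    rw [PMF.pure_apply, if_pos rfl, mul_one]
    exact pE_down_pos j i l
  | succ d ih =>
    rw [walk_succ', PMF.bind_apply]
    refine lt_of_lt_of_le ?_ (ENNReal.le_tsum (vx (j + d + 1) ⟨0, fin_pos _⟩))
    exact ENNReal.mul_pos (pE_down_pos (j + d + 1) i _).ne' (ih ⟨0, fin_pos _⟩).ne'

lemma walk_stay (m D : ℕ) (y : VV) (c0 : ℝ≥0∞)
    (h : ∀ i, c0 ≤ walk PK (vx m i) D y) (k : ℕ) (i : Fin (W m)) :
    ENNReal.ofReal (bv m) ^ k * c0 ≤ walk PK (vx m i) (k + D) y := by
  induction k generalizing i with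
  | zero => simpa using h i
  | succ k ih =>
    have e : k + 1 + D = (k + D) + 1 := by ring
    rw [e, walk_succ', PMF.bind_apply]
    simp only [PK_apply]
    rw [tsum_pE]
    refine le_trans ?_ (le_self_add.trans le_self_add)
    have h1 : ENNReal.ofReal (bb m) * ∑ j ∈ Finset.univ.erase i,
        (ENNReal.ofReal (bv m) ^ k * c0) ≤
        ENNReal.ofReal (bb m) * ∑ j ∈ Finset.univ.erase i, walk PK (vx m j) (k + D) y := by
      gcongr with j hj
      exact ih j
    refine le_trans (le_of_eq ?_) h1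
    rw [Finset.sum_const, Finset.card_erase_of_mem (Finset.mem_univ _), Finset.card_univ,
      Fintype.card_fin, nsmul_eq_mul, ← mul_assoc]
    have hW := Wr m
    have e2 : ENNReal.ofReal (bb m) * ((W m - 1 : ℕ) : ℝ≥0∞) = ENNReal.ofReal (bv m) := by
      have : ((W m - 1 : ℕ) : ℝ≥0∞) = ENNReal.ofReal ((W m : ℝ) - 1) := by
        rw [← ENNReal.ofReal_natCast, Nat.cast_sub (by have := W_ge m; omega), Nat.cast_one]
      rw [this, ← ENNReal.ofReal_mul (bb_pos m).le, mul_comm, W_bb]
    rw [e2, pow_succ]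
    ring

lemma walk_lower (x y : VV) (m : ℕ) (hx : lv x < m) (hy : lv y < m) :
    ∃ c : ℝ≥0∞, 0 < c ∧ ∃ N : ℕ, ∀ n, N ≤ n → c * ENNReal.ofReal (bv m) ^ n ≤ walk PK x n y := by
  obtain ⟨a, i, rfl⟩ := exists_vx x
  obtain ⟨b, l, rfl⟩ := exists_vx y
  rw [lv_vx] at hx hy
  obtain ⟨d, rfl⟩ := Nat.exists_eq_add_of_lt hy
  have : Nonempty (Fin (W (b + d + 1))) := ⟨⟨0, fin_pos _⟩⟩
  obtain ⟨i0, hi0⟩ := Finite.exists_min (fun i => walk PK (vx (b + d + 1) i) (d + 1) (vx b l))
  have h1 := walk_stay (b + d + 1) (d + 1) (vx b l) _ hi0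
  obtain ⟨e, he⟩ := Nat.exists_eq_add_of_lt hx
  have h2 : 0 < walk PK (vx a i) (e + 1) (vx (b + d + 1) i0) := by
    rw [walk_symm PK PK_symm]
    have key : ∀ (m' : ℕ) (hm' : m' = a + e + 1) (i1 : Fin (W m')),
        0 < walk PK (vx m' i1) (e + 1) (vx a i) := by
      rintro m' rfl i1
      exact walk_down_pos e a i1 i
    exact key _ he i0
  refine ⟨walk PK (vx a i) (e + 1) (vx (b + d + 1) i0) *
    walk PK (vx (b + d + 1) i0) (d + 1) (vx b l),
    ENNReal.mul_pos h2.ne' (walk_down_pos d b i0 l).ne', (e + 1) + (d + 1), fun n hn => ?_⟩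
  obtain ⟨k, rfl⟩ := Nat.exists_eq_add_of_le hn
  have e3 : (e + 1) + (d + 1) + k = (e + 1) + (k + (d + 1)) := by ring
  have hle : ENNReal.ofReal (bv (b + d + 1)) ≤ 1 := by
    rw [← ENNReal.ofReal_one]
    apply ENNReal.ofReal_le_ofReal
    have := uu_ge (b + d + 1)
    have := dd_nonneg (b + d + 1)
    unfold bv
    linarith
  refine le_trans ?_ ((mul_le_mul_right (h1 k i0) _).trans
    ((walk_add_ge PK (vx a i) (vx (b + d + 1) i0) (vx b l) (e + 1) (k + (d + 1))).trans
      (le_of_eq (by rw [e3]))))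
  rw [mul_assoc]
  refine mul_le_mul_right ?_ _
  rw [mul_comm]
  refine mul_le_mul_left ?_ _
  exact pow_le_pow_right_of_le_one' hle (by omega)

lemma irred (x y : VV) : ∃ n, 0 < walk PK x n y := by
  obtain ⟨c, hc, N, hN⟩ := walk_lower x y (lv x + lv y + 1) (by omega) (by omega)
  refine ⟨N, lt_of_lt_of_le ?_ (hN N le_rfl)⟩
  refine ENNReal.mul_pos hc.ne' (pow_ne_zero _ ?_)
  have := bv_ge (lv x + lv y + 1)
  simp only [ne_eq, ENNReal.ofReal_eq_zero, not_le]
  linarith

end Pool.Agent.V11331.BR
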