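import Pool.Agent.V11331.BR.Rho

set_option autoImplicit false
set_option linter.unusedSectionVars false

open MeasureTheory ProbabilityTheory Filter Topology
open scoped ENNReal

namespace Pool.Agent.V11331.BR

lemma tendsto_root (C β : ℝ) (hC : 0 < C) :
    Tendsto (fun n : ℕ => ENNReal.ofReal (C ^ (1 / (n : ℝ)) * β)) atTop
      (𝓝 (ENNReal.ofReal β)) := by
  have h1 : Tendsto (fun n : ℕ => C ^ (1 / (n : ℝ))) atTop (𝓝 (C ^ (0 : ℝ))) :=
    (tendsto_const_nhds (x := C)).rpow tendsto_one_div_atTop_nhds_zero_nat (Or.inl hC.ne')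
  rw [Real.rpow_zero] at h1
  have h2 := (ENNReal.continuous_ofReal.tendsto _).comp (h1.mul_const β)
  rw [one_mul] at h2
  exact h2

lemma root_eq (C β : ℝ) (hC : 0 < C) (hβ : 0 < β) (n : ℕ) (hn : 1 ≤ n) :
    (ENNReal.ofReal (C * β ^ n)) ^ (1 / (n : ℝ)) = ENNReal.ofReal (C ^ (1 / (n : ℝ)) * β) := by
  have hn0 : (n : ℝ) ≠ 0 := by positivity
  rw [ENNReal.ofReal_rpow_of_nonneg (by positivity) (by positivity),
    Real.mul_rpow hC.le (by positivity), ← Real.rpow_natCast β n, ← Real.rpow_mul hβ.le,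
    mul_one_div_cancel hn0, Real.rpow_one]

lemma limsup_upper (x y : VV) :
    limsup (fun n : ℕ => (walk PK x n y) ^ (1 / (n : ℝ))) atTop ≤ ENNReal.ofReal (1 / 2) := by
  have hC : 0 < hh (lv x) / hh (lv y) := div_pos (hh_pos _) (hh_pos _)
  rw [← (tendsto_root _ (1 / 2) hC).limsup_eq]
  refine limsup_le_limsup ?_
  filter_upwards [eventually_ge_atTop 1] with n hn
  rw [← root_eq _ (1 / 2) hC (by norm_num) n hn]
  exact ENNReal.rpow_le_rpow (walk_upper n x y) (by positivity)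

lemma limsup_lower (x y : VV) (m : ℕ) (hx : lv x < m) (hy : lv y < m) :
    ENNReal.ofReal (bv m) ≤ limsup (fun n : ℕ => (walk PK x n y) ^ (1 / (n : ℝ))) atTop := by
  obtain ⟨c, hc, N, hN⟩ := walk_lower x y m hx hy
  have hb := bv_ge m
  have hb0 : 0 < bv m := by linarith
  set r : ℝ := (min c 1).toReal with hr
  have hmin : min c 1 ≠ ∞ := (lt_of_le_of_lt (min_le_right _ _) ENNReal.one_lt_top).ne
  have hr0 : 0 < r := ENNReal.toReal_pos (lt_min hc one_pos).ne' hmin
  have hrc : ENNReal.ofReal r ≤ c := by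
    rw [hr, ENNReal.ofReal_toReal hmin]
    exact min_le_left _ _
  rw [← (tendsto_root r (bv m) hr0).limsup_eq]
  refine limsup_le_limsup ?_
  filter_upwards [eventually_ge_atTop 1, eventually_ge_atTop N] with n hn hnN
  rw [← root_eq r (bv m) hr0 hb0 n hn]
  refine ENNReal.rpow_le_rpow (le_trans ?_ (hN n hnN)) (by positivity)
  rw [ENNReal.ofReal_mul hr0.le, ENNReal.ofReal_pow hb0.le]
  exact mul_le_mul_left hrc _

lemma le_W (n : ℕ) : n ≤ W n := by
  induction n with
  | zero => exact Nat.zero_le _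
  | succ n ih =>
    rw [W_succ]
    have h1 := T_ge n
    have h2 := T_ge (n + 1)
    have h3 := W_ge n
    calc n + 1 ≤ 2 * W n := by omega
      _ ≤ (5 * T n * T (n + 1)) * W n := by
        refine Nat.mul_le_mul ?_ le_rfl
        calc 2 ≤ 500 * 100 := by norm_num
          _ ≤ (5 * T n) * T (n + 1) := Nat.mul_le_mul (by omega) h2

lemma rho_eq (x y : VV) :
    limsup (fun n : ℕ => (walk PK x n y) ^ (1 / (n : ℝ))) atTop = ENNReal.ofReal (1 / 2) := by
  apply le_antisymm (limsup_upper x y)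
  have h1 : Tendsto (fun k : ℕ => ENNReal.ofReal (1 / 2 - 1 / (k : ℝ))) atTop
      (𝓝 (ENNReal.ofReal (1 / 2 - 0))) :=
    (ENNReal.continuous_ofReal.tendsto _).comp
      (tendsto_const_nhds.sub tendsto_one_div_atTop_nhds_zero_nat)
  rw [sub_zero] at h1
  refine le_of_tendsto h1 ?_
  filter_upwards [eventually_ge_atTop (lv x + lv y + 1)] with k hk
  obtain ⟨m, hm, -, hT⟩ := exists_block k
  refine le_trans (ENNReal.ofReal_le_ofReal ?_)
    (limsup_lower x y (m + W m) (by omega) (by omega))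
  have hkT : k ≤ T (m + W m) := by
    rw [hT]
    have h1 := le_W m
    have h2 : 1 ≤ 5 ^ W m := Nat.one_le_pow _ _ (by norm_num)
    calc k ≤ W m * 1 := by omega
      _ ≤ W m * 5 ^ W m := Nat.mul_le_mul le_rfl h2
  have hkT' : (k : ℝ) ≤ T (m + W m) := by exact_mod_cast hkT
  have hk0 : (0 : ℝ) < k := by
    have : 1 ≤ k := by omega
    exact_mod_cast this
  have hTr := Tr (m + W m)
  rw [bv_eq]
  have hd : dd (m + W m) ≤ 0.00101 / T (m + W m) := by
    rw [le_div_iff₀ (by positivity)]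
    exact dd_le _
  have h3 : 1 / (T (m + W m) : ℝ) ≤ 1 / k := one_div_le_one_div_of_le hk0 hkT'
  have h4 : 1 / (2 * (T (m + W m) : ℝ)) = (1 / 2) * (1 / T (m + W m)) := by field_simp
  have h5 : 0.00101 / (T (m + W m) : ℝ) = 0.00101 * (1 / T (m + W m)) := by ring
  have h6 : 0 < 1 / (T (m + W m) : ℝ) := by positivity
  rw [h4]
  rw [h5] at hd
  linarith

end Pool.Agent.V11331.BR
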